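import Pool.Agent.K1H19.Lech.Mon

/-!
# Integral closures of sets of exponents
-/

set_option autoImplicit false

namespace Pool.Agent.K1H19.Lech

open Finset

variable {n : ℕ}

/-- a sum of at least `N` elements of `J` is at most `a` -/
def NS (N : ℕ) (J : Set (Fin n → ℕ)) (a : Fin n → ℕ) : Prop :=
  ∃ s : Multiset (Fin n → ℕ), N ≤ s.card ∧ (∀ x ∈ s, x ∈ J) ∧ s.sum ≤ a

/-- the integral closure -/
def cl (J : Set (Fin n → ℕ)) : Set (Fin n → ℕ) := {a | ∃ q, 1 ≤ q ∧ NS q J (q • a)}

/-- replace the variable `j` by the variable `i` -/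
def move (j i : Fin n) (a : Fin n → ℕ) : Fin n → ℕ :=
  fun m => if m = j then 0 else if m = i then a i + a j else a m

/-- the properties of the set of leading exponents -/
structure Adm (J : Set (Fin n → ℕ)) (M : ℕ) : Prop where
  up : ∀ a b, a ∈ J → a ≤ b → b ∈ J
  big : ∀ a : Fin n → ℕ, M ≤ ∑ i, a i → a ∈ J
  mv : ∀ a j i, a ∈ J → j < i → move j i a ∈ J

lemma NS.mono {N : ℕ} {J : Set (Fin n → ℕ)} {a b : Fin n → ℕ} (h : NS N J a) (hab : a ≤ b) :
    NS N J b := by
  obtain ⟨s, h1, h2, h3⟩ := h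
  exact ⟨s, h1, h2, h3.trans hab⟩

lemma subset_cl (J : Set (Fin n → ℕ)) : J ⊆ cl J := fun a ha =>
  ⟨1, le_rfl, {a}, by simp, by simpa using ha, by simp⟩

lemma cl_up (J : Set (Fin n → ℕ)) {a b : Fin n → ℕ} (h : a ∈ cl J) (hab : a ≤ b) : b ∈ cl J := by
  obtain ⟨q, hq, h⟩ := h
  exact ⟨q, hq, h.mono (smul_le_smul_of_nonneg_left hab (Nat.zero_le q))⟩

lemma move_add (j i : Fin n) (a b : Fin n → ℕ) :
    move j i (a + b) = move j i a + move j i b := by
  funext m
  simp only [move, Pi.add_apply]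
  split_ifs <;> ring

lemma move_sum (j i : Fin n) (s : Multiset (Fin n → ℕ)) :
    (s.map (move j i)).sum = move j i s.sum := by
  induction s using Multiset.induction with
  | empty => funext m; simp [move]
  | cons a s ih => rw [Multiset.map_cons, Multiset.sum_cons, Multiset.sum_cons, ih, move_add]

lemma move_mono (j i : Fin n) {a b : Fin n → ℕ} (h : a ≤ b) : move j i a ≤ move j i b := by
  intro m
  simp only [move]
  split_ifs
  · exact le_rfl
  · exact Nat.add_le_add (h i) (h j)
  · exact h m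

lemma move_smul (j i : Fin n) (q : ℕ) (a : Fin n → ℕ) :
    move j i (q • a) = q • move j i a := by
  funext m
  simp only [move, Pi.smul_apply, smul_eq_mul]
  split_ifs <;> ring

lemma cl_mv {J : Set (Fin n → ℕ)} (hJ : ∀ a j i, a ∈ J → j < i → move j i a ∈ J)
    {a : Fin n → ℕ} {j i : Fin n} (hji : j < i) (h : a + Pi.single j 1 ∈ cl J) :
    a + Pi.single i 1 ∈ cl J := by
  obtain ⟨q, hq, v, hv1, hv2, hv3⟩ := h
  set x := a + Pi.single j 1 with hx
  have hxj : x j = a j + 1 := by simp [hx]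
  refine ⟨(a j + 1) * q, Nat.mul_pos (Nat.succ_pos _) hq, a j • v + v.map (move j i), ?_, ?_, ?_⟩
  · rw [Multiset.card_add, Multiset.card_nsmul, Multiset.card_map]
    calc (a j + 1) * q = a j * q + q := by ring
      _ ≤ a j * v.card + v.card := Nat.add_le_add (Nat.mul_le_mul_left _ hv1) hv1
  · intro y hy
    rcases Multiset.mem_add.mp hy with hy | hy
    · exact hv2 y (Multiset.mem_of_mem_nsmul hy)
    · obtain ⟨w, hw, rfl⟩ := Multiset.mem_map.mp hy
      exact hJ w j i (hv2 w hw) hji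
  · rw [Multiset.sum_add, Multiset.sum_nsmul, move_sum]
    have h1 : a j • v.sum + move j i v.sum ≤ a j • (q • x) + move j i (q • x) :=
      add_le_add (smul_le_smul_of_nonneg_left hv3 (Nat.zero_le _)) (move_mono j i hv3)
    refine h1.trans (le_of_eq ?_)
    funext m
    simp only [Pi.add_apply, Pi.smul_apply, smul_eq_mul, move, hx]
    by_cases h1 : m = j
    · subst h1
      rw [if_pos rfl, Pi.single_eq_same, Pi.single_eq_of_ne (ne_of_lt hji)]
      ring
    · rw [if_neg h1]
      by_cases h2 : m = i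
      · subst h2
        rw [if_pos rfl, Pi.single_eq_same, Pi.single_eq_same, Pi.single_eq_of_ne (ne_of_gt hji)]
        ring
      · rw [if_neg h2, Pi.single_eq_of_ne h1, Pi.single_eq_of_ne h2]
        ring

/-- sums of elements of the integral closure are sums of elements, up to a bounded loss -/
lemma exists_loss {J : Set (Fin n → ℕ)} {M : ℕ} (hJ : ∀ a : Fin n → ℕ, M ≤ ∑ i, a i → a ∈ J) :
    ∃ κ : ℕ, ∀ (N : ℕ) (a : Fin n → ℕ), NS (N + κ) (cl J) a → NS N J a := by
  classical
  have hfin : Set.Finite {a : Fin n → ℕ | a ∈ cl J ∧ a ∉ J} := by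
    apply Set.Finite.subset (Set.Finite.pi (fun _ : Fin n => Set.finite_Iio M))
    intro a ha i _
    have h1 : ∑ i, a i < M := by
      by_contra h
      exact ha.2 (hJ a (not_lt.mp h))
    exact lt_of_le_of_lt (Finset.single_le_sum (fun j _ => Nat.zero_le (a j)) (Finset.mem_univ i)) h1
  set E := hfin.toFinset with hE
  have hEcl : ∀ u ∈ E, ∃ q, 1 ≤ q ∧ NS q J (q • u) := by
    intro u hu
    rw [hE, Set.Finite.mem_toFinset] at hu
    exact hu.1
  choose! qf hq1 hq2 using hEcl
  -- for every `u ∈ E` choose the multiset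
  have h3 : ∀ u ∈ E, ∃ t : Multiset (Fin n → ℕ), qf u ≤ t.card ∧ (∀ x ∈ t, x ∈ J) ∧
      t.sum ≤ qf u • u := hq2
  choose! t ht1 ht2 ht3 using h3
  refine ⟨∑ u ∈ E, qf u, ?_⟩
  rintro N a ⟨s, hs1, hs2, hs3⟩
  set s1 := s.filter (fun x => x ∈ J) with hs1'
  set s2 := s.filter (fun x => ¬ x ∈ J) with hs2'
  have hs : s1 + s2 = s := Multiset.filter_add_not _ s
  have hs2E : ∀ x ∈ s2, x ∈ E := by
    intro x hx
    rw [hs2', Multiset.mem_filter] at hx
    rw [hE, Set.Finite.mem_toFinset]
    exact ⟨hs2 x hx.1, hx.2⟩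
  have hcard2 : s2.card = ∑ u ∈ E, s2.count u := by
    rw [Multiset.sum_count_eq_card hs2E]
  have hsum2 : s2.sum = ∑ u ∈ E, s2.count u • u := by
    rw [Finset.sum_multiset_count]
    apply Finset.sum_subset
    · intro x hx
      exact hs2E x (Multiset.mem_toFinset.mp hx)
    · intro x _ hx
      rw [Multiset.count_eq_zero_of_notMem (fun h => hx (Multiset.mem_toFinset.mpr h)), zero_smul]
  refine ⟨s1 + ∑ u ∈ E, (s2.count u / qf u) • t u, ?_, ?_, ?_⟩
  · rw [Multiset.card_add, Multiset.card_sum]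
    have h4 : ∀ u ∈ E, s2.count u ≤ ((s2.count u / qf u) • t u).card + qf u := by
      intro u hu
      rw [Multiset.card_nsmul]
      have h5 := Nat.div_add_mod (s2.count u) (qf u)
      have h6 := Nat.mod_lt (s2.count u) (hq1 u hu)
      have h7 : (s2.count u / qf u) * qf u ≤ (s2.count u / qf u) * (t u).card :=
        Nat.mul_le_mul_left _ (ht1 u hu)
      rw [Nat.mul_comm] at h5
      omega
    have h5 : s2.card ≤ ∑ u ∈ E, ((s2.count u / qf u) • t u).card + ∑ u ∈ E, qf u := by
      rw [hcard2, ← Finset.sum_add_distrib]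
      exact Finset.sum_le_sum h4
    have h6 : s1.card + s2.card = s.card := by rw [← Multiset.card_add, hs]
    omega
  · intro x hx
    rcases Multiset.mem_add.mp hx with hx | hx
    · rw [hs1', Multiset.mem_filter] at hx
      exact hx.2
    · rw [Multiset.mem_sum] at hx
      obtain ⟨u, hu, hx⟩ := hx
      exact ht2 u hu x (Multiset.mem_of_mem_nsmul hx)
  · refine le_trans ?_ hs3
    rw [← hs, Multiset.sum_add, Multiset.sum_add]
    refine add_le_add le_rfl ?_
    rw [hsum2, Multiset.sum_sum]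
    refine Finset.sum_le_sum fun u hu => ?_
    rw [Multiset.sum_nsmul]
    refine (smul_le_smul_of_nonneg_left (ht3 u hu) (Nat.zero_le _)).trans ?_
    rw [smul_smul]
    have h5 : s2.count u / qf u * qf u ≤ s2.count u := Nat.div_mul_le_self _ _
    intro m
    simp only [Pi.smul_apply, smul_eq_mul]
    exact Nat.mul_le_mul_right _ h5

variable {A : Type*} [CommRing A]

lemma NS_mon (z : Fin n → A) {J : Set (Fin n → ℕ)} {I : Ideal A}
    (hJ : ∀ a ∈ J, mon z a ∈ I ⊔ Q z a) {N : ℕ} {a : Fin n → ℕ} (h : NS N J a) :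
    mon z a ∈ I ^ N ⊔ Q z a := by
  obtain ⟨s, h1, h2, h3⟩ := h
  have key : mon z s.sum ∈ I ^ s.card ⊔ Q z s.sum := by
    clear h1 h3
    induction s using Multiset.induction with
    | empty =>
      rw [Multiset.card_zero, pow_zero, Ideal.one_eq_top, top_sup_eq]
      trivial
    | cons b s ih =>
      rw [Multiset.sum_cons, Multiset.card_cons, pow_succ']
      exact mon_add_mem z (hJ b (h2 b (Multiset.mem_cons_self b s)))
        (ih fun x hx => h2 x (Multiset.mem_cons_of_mem hx))
  have key2 : mon z s.sum ∈ I ^ N ⊔ Q z s.sum := by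
    have h4 : I ^ s.card ≤ I ^ N := Ideal.pow_le_pow_right h1
    exact (sup_le_sup_right h4 (Q z s.sum)) key
  have e : a = s.sum + (a - s.sum) := (add_tsub_cancel_of_le h3).symm
  rw [e]
  exact mon_up z _ key2

end Pool.Agent.K1H19.Lech
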