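import Mathlib

/-!
# A counting inequality for sets of multisets which are closed under duplication

`st n c` are the unsigned Stirling numbers of the first kind (coefficients of the rising factorial).
If `X` is a predicate on multisets such that `X W` and `v ∈ W` imply `X (v ::ₘ W)` (for `card W < n`),
then `∑ c, st n c * #{w : Fin c → α | X w} ≤ n! * #{W | card W = n, X W}`.
-/

set_option autoImplicit false

namespace Pool.Agent.K1H19.Lech

open Finset

/-- unsigned Stirling numbers of the first kind -/
noncomputable def st (n c : ℕ) : ℕ := (ascPochhammer ℕ n).coeff c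

lemma st_zero_zero : st 0 0 = 1 := by simp [st]

lemma st_succ_zero (n : ℕ) : st (n + 1) 0 = n * st n 0 := by
  simp [st, ascPochhammer_succ_right, Polynomial.mul_coeff_zero, mul_comm]

lemma st_succ_succ (n c : ℕ) : st (n + 1) (c + 1) = st n c + n * st n (c + 1) := by
  unfold st
  rw [ascPochhammer_succ_right, mul_add, Polynomial.coeff_add, Polynomial.coeff_mul_X,
    Polynomial.coeff_mul_natCast, mul_comm n]
  simp

lemma st_eq_zero {n c : ℕ} (h : n < c) : st n c = 0 := by
  unfold st
  apply Polynomial.coeff_eq_zero_of_natDegree_lt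
  rw [ascPochhammer_natDegree]
  exact h

variable {α : Type} [Fintype α] [DecidableEq α]

open Classical in
/-- number of multisets of cardinality `n` with property `X` -/
noncomputable def A (n : ℕ) (X : Multiset α → Prop) : ℕ :=
  ∑ s : Sym α n, if X (s : Multiset α) then 1 else 0

open Classical in
/-- number of words of length `c` with property `X` -/
noncomputable def F (c : ℕ) (X : Multiset α → Prop) : ℕ :=
  ∑ w : Fin c → α, if X (univ.val.map w) then 1 else 0

lemma F_succ (c : ℕ) (X : Multiset α → Prop) :
    F (c + 1) X = ∑ v : α, F c (fun W => X (v ::ₘ W)) := by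
  classical
  unfold F
  rw [← (Fin.consEquiv (fun _ : Fin (c + 1) => α)).sum_comp, Fintype.sum_prod_type]
  refine Finset.sum_congr rfl fun v _ => Finset.sum_congr rfl fun w _ => ?_
  have h : (univ : Finset (Fin (c + 1))).val.map (Fin.consEquiv (fun _ : Fin (c + 1) => α) (v, w))
      = v ::ₘ (univ : Finset (Fin c)).val.map w := by
    rw [Fin.univ_succ, Finset.cons_val, Multiset.map_cons, Finset.map_val, Multiset.map_map]
    rfl
  simp only [h]

lemma sum_cons {n : ℕ} (v : α) (f : Sym α (n + 1) → ℕ) (hf : ∀ s, v ∉ s → f s = 0) :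
    ∑ s, f s = ∑ s' : Sym α n, f (v ::ₛ s') := by
  classical
  have hinj : Function.Injective (fun s' : Sym α n => v ::ₛ s') := fun a b h =>
    (Sym.cons_inj_right v a b).mp h
  rw [← Finset.sum_image (s := univ) (g := fun s' : Sym α n => v ::ₛ s') (f := f)
    (fun a _ b _ h => hinj h)]
  symm
  apply Finset.sum_subset (Finset.subset_univ _)
  intro s _ hs
  apply hf
  intro hv
  apply hs
  obtain ⟨t, ht⟩ := Sym.exists_cons_of_mem hv
  rw [Finset.mem_image]
  exact ⟨t, Finset.mem_univ _, ht.symm⟩

lemma count_ineq (n : ℕ) (X : Multiset α → Prop)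
    (h : ∀ (W : Multiset α) (v : α), W.card < n + 1 → v ∈ W → X W → X (v ::ₘ W)) :
    ∑ v : α, A n (fun W => X (v ::ₘ W)) + n * A n X ≤ (n + 1) * A (n + 1) X := by
  classical
  have e1 : (n + 1) * A (n + 1) X =
      ∑ v : α, ∑ s : Sym α (n + 1), (if X (s : Multiset α) then (s : Multiset α).count v else 0) := by
    rw [Finset.sum_comm]
    unfold A
    rw [Finset.mul_sum]
    refine Finset.sum_congr rfl fun s _ => ?_
    split_ifs with hs
    · rw [Multiset.sum_count_eq_card (s := univ) (fun a _ => Finset.mem_univ a)]
      simp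
    · simp
  have e2 : n * A n X =
      ∑ v : α, ∑ s : Sym α n, (if X (s : Multiset α) then (s : Multiset α).count v else 0) := by
    rw [Finset.sum_comm]
    unfold A
    rw [Finset.mul_sum]
    refine Finset.sum_congr rfl fun s _ => ?_
    split_ifs with hs
    · rw [Multiset.sum_count_eq_card (s := univ) (fun a _ => Finset.mem_univ a)]
      simp
    · simp
  rw [e1, e2, ← Finset.sum_add_distrib]
  refine Finset.sum_le_sum fun v _ => ?_
  rw [sum_cons v]
  · unfold A
    rw [← Finset.sum_add_distrib]
    refine Finset.sum_le_sum fun s _ => ?_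
    have hcoe : ((v ::ₛ s : Sym α (n + 1)) : Multiset α) = v ::ₘ (s : Multiset α) := rfl
    rw [hcoe, Multiset.count_cons_self]
    by_cases hs : X (v ::ₘ (s : Multiset α))
    · simp only [if_pos hs]
      split_ifs <;> omega
    · simp only [if_neg hs]
      by_cases hX : X (s : Multiset α)
      · rw [if_pos hX]
        by_cases hv : v ∈ (s : Multiset α)
        · exact absurd (h _ v (by simp) hv hX) hs
        · rw [Multiset.count_eq_zero_of_notMem hv]
      · rw [if_neg hX]
  · intro s hs
    have : v ∉ (s : Multiset α) := hs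
    rw [Multiset.count_eq_zero_of_notMem this, ite_self]

theorem main_count (n : ℕ) : ∀ (X : Multiset α → Prop),
    (∀ (W : Multiset α) (v : α), W.card < n → v ∈ W → X W → X (v ::ₘ W)) →
    ∑ c ∈ range (n + 1), st n c * F c X ≤ n.factorial * A n X := by
  classical
  induction n with
  | zero =>
    intro X _
    have h1 : A 0 X = if X 0 then 1 else 0 := by
      unfold A
      rw [Fintype.sum_unique]
      rfl
    have h2 : F 0 X = if X 0 then 1 else 0 := by
      unfold F
      rw [Fintype.sum_unique]
      rfl
    simp [h1, h2, st_zero_zero]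
  | succ n ih =>
    intro X hX
    have h1 := count_ineq n X hX
    have h2 : ∀ v : α, ∑ c ∈ range (n + 1), st n c * F c (fun W => X (v ::ₘ W)) ≤
        n.factorial * A n (fun W => X (v ::ₘ W)) := by
      intro v
      apply ih
      intro W u hW hu hWX
      show X (v ::ₘ u ::ₘ W)
      rw [Multiset.cons_swap]
      apply hX _ _ _ _ hWX
      · rw [Multiset.card_cons]; omega
      · exact Multiset.mem_cons_of_mem hu
    have h3 := ih X (fun W v hW => hX W v (by omega))
    have h4 : ∑ c ∈ range (n + 1 + 1), st (n + 1) c * F c X =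
        ∑ c ∈ range (n + 1), st n c * F (c + 1) X + n * ∑ c ∈ range (n + 1), st n c * F c X := by
      rw [Finset.sum_range_succ' (fun c => st (n + 1) c * F c X), st_succ_zero]
      have h5 : ∑ c ∈ range (n + 1), st (n + 1) (c + 1) * F (c + 1) X =
          ∑ c ∈ range (n + 1), st n c * F (c + 1) X +
          n * ∑ c ∈ range (n + 1), st n (c + 1) * F (c + 1) X := by
        rw [Finset.mul_sum, ← Finset.sum_add_distrib]
        refine Finset.sum_congr rfl fun c _ => ?_
        rw [st_succ_succ]; ring
      rw [h5, add_assoc]
      congr 1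
      rw [Finset.sum_range_succ, st_eq_zero (Nat.lt_succ_self n), zero_mul, add_zero,
        Finset.sum_range_succ' (fun c => st n c * F c X)]
      ring
    rw [h4]
    calc ∑ c ∈ range (n + 1), st n c * F (c + 1) X + n * ∑ c ∈ range (n + 1), st n c * F c X
        = ∑ v : α, ∑ c ∈ range (n + 1), st n c * F c (fun W => X (v ::ₘ W)) +
          n * ∑ c ∈ range (n + 1), st n c * F c X := by
          congr 1
          rw [Finset.sum_comm]
          refine Finset.sum_congr rfl fun c _ => ?_
          rw [F_succ, Finset.mul_sum]
      _ ≤ ∑ v : α, n.factorial * A n (fun W => X (v ::ₘ W)) + n * (n.factorial * A n X) :=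
          Nat.add_le_add (Finset.sum_le_sum fun v _ => h2 v) (Nat.mul_le_mul_left _ h3)
      _ = n.factorial * (∑ v : α, A n (fun W => X (v ::ₘ W)) + n * A n X) := by
          rw [← Finset.mul_sum]; ring
      _ ≤ n.factorial * ((n + 1) * A (n + 1) X) := Nat.mul_le_mul_left _ h1
      _ = (n + 1).factorial * A (n + 1) X := by
          rw [Nat.factorial_succ]; ring

end Pool.Agent.K1H19.Lech
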