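import Pool.Agent.K1H19.Lech.Tab

/-!
# Counting exponents outside a strongly stable set
-/

set_option autoImplicit false

namespace Pool.Agent.K1H19.Lech

open Finset

variable {d : ℕ} {J : Set (Fin (d + 1) → ℕ)}

/-- multisets whose exponent is not in `J` -/
def XX (d M : ℕ) (J : Set (Fin (d + 1) → ℕ)) (W : Multiset (Fin M)) : Prop :=
  tab d (W.map Fin.val) ∉ J

lemma A_le (M : ℕ) (S : Finset (Fin (d + 1) → ℕ)) (hS : ∀ a, a ∉ J → a ∈ S) :
    A (d + 1) (XX d M J) ≤ S.card := by
  classical
  unfold A
  rw [← Finset.card_filter]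
  apply Finset.card_le_card_of_injOn (fun s : Sym (Fin M) (d + 1) =>
    tab d ((s : Multiset (Fin M)).map Fin.val))
  · intro s hs
    have hs' : XX d M J (s : Multiset (Fin M)) := by simpa using hs
    exact hS _ hs'
  · intro s _ s' _ h
    have h1 := tab_inj (by simp) (by simp) h
    have h2 := Multiset.map_injective Fin.val_injective h1
    exact Subtype.ext h2

lemma main_ineq (hJ : SS J) (M : ℕ) (S : Finset (Fin (d + 1) → ℕ)) (hS : ∀ a, a ∉ J → a ∈ S) :
    ∑ c ∈ range (d + 2), st (d + 1) c * F c (XX d M J) ≤ (d + 1).factorial * S.card := by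
  refine (main_count (d + 1) (XX d M J) ?_).trans (Nat.mul_le_mul_left _ (A_le M S hS))
  intro W v _ hv hW hW'
  apply hW
  rw [Multiset.map_cons] at hW'
  exact hJ.tab_dup (Multiset.mem_map_of_mem _ hv) hW'

/-- partial sums -/
def ps (a : Fin (d + 1) → ℕ) (m : ℕ) : ℕ := ∑ l ∈ range m, a (idx d l)

lemma ps_mono (a : Fin (d + 1) → ℕ) : Monotone (ps a) := by
  intro m m' h
  exact Finset.sum_le_sum_of_subset (Finset.range_subset_range.mpr h)

lemma ps_zero (a : Fin (d + 1) → ℕ) : ps a 0 = 0 := rfl

lemma ps_succ (a : Fin (d + 1) → ℕ) (m : ℕ) : ps a (m + 1) = ps a m + a (idx d m) :=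
  Finset.sum_range_succ _ _

lemma sum_range_ps {β : Type*} [AddCommMonoid β] (a : Fin (d + 1) → ℕ) (f : ℕ → β) (c : ℕ) :
    ∑ t ∈ range (ps a c), f t = ∑ l ∈ range c, ∑ t ∈ Ico (ps a l) (ps a (l + 1)), f t := by
  induction c with
  | zero => simp [ps_zero]
  | succ c ih =>
    rw [Finset.sum_range_succ, ← ih, Finset.range_eq_Ico, Finset.range_eq_Ico,
      Finset.sum_Ico_consecutive f (Nat.zero_le _) (ps_mono a (Nat.le_succ c))]

/-- the function `m ↦ ps a (m + 1)` on `Fin c` -/
def bf (c : ℕ) (a : Fin (d + 1) → ℕ) (m : Fin c) : ℕ := ps a (m.val + 1)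

lemma le_bf (c : ℕ) (a : Fin (d + 1) → ℕ) {l t : ℕ} (hl : l < c) (h1 : ps a l ≤ t)
    (h2 : t < ps a (l + 1)) : le t (univ.val.map (bf c a)) = l := by
  unfold le
  rw [Multiset.countP_map]
  have e : (Multiset.filter (fun m : Fin c => bf c a m ≤ t) univ.val) =
      (Finset.univ.filter (fun m : Fin c => m.val < l)).val := by
    rw [Finset.filter_val]
    apply Multiset.filter_congr
    intro m _
    constructor
    · intro h
      by_contra hcon
      have h3 : ps a (l + 1) ≤ ps a (m.val + 1) := ps_mono a (by omega)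
      have h4 : ps a (m.val + 1) ≤ t := h
      omega
    · intro h
      have h3 : ps a (m.val + 1) ≤ ps a l := ps_mono a (by omega)
      exact h3.trans h1
  rw [e]
  show (Finset.univ.filter (fun m : Fin c => m.val < l)).card = l
  have h3 : (Finset.univ.filter (fun m : Fin c => m.val < l)) = Finset.Iio (⟨l, hl⟩ : Fin c) := by
    ext m
    simp [Fin.lt_def]
  rw [h3, Fin.card_Iio]

lemma sup_bf {c : ℕ} (a : Fin (d + 1) → ℕ) : (univ.val.map (bf c a)).sup = ps a c := by
  apply le_antisymm
  · rw [Multiset.sup_le]
    intro b hb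
    obtain ⟨m, _, rfl⟩ := Multiset.mem_map.mp hb
    exact ps_mono a (by omega)
  · rcases Nat.eq_zero_or_pos c with rfl | hc
    · rw [ps_zero]; exact Nat.zero_le _
    · have : bf c a ⟨c - 1, by omega⟩ ∈ univ.val.map (bf c a) :=
        Multiset.mem_map_of_mem _ (Finset.mem_val.mpr (Finset.mem_univ _))
      refine le_trans (le_of_eq ?_) (Multiset.le_sup this)
      unfold bf
      congr 1
      simp only
      omega

lemma tab_bf {i : ℕ} (hi : i ≤ d) (a : Fin (d + 1) → ℕ) (ha : ∀ j : Fin (d + 1), j.val < i → a j = 0) :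
    tab d (univ.val.map (bf (d + 1 - i) a)) = a := by
  unfold tab
  rw [sup_bf, sum_range_ps]
  have h1 : ∀ l ∈ range (d + 1 - i), ∑ t ∈ Ico (ps a l) (ps a (l + 1)),
      (Pi.single (idx d (le t (univ.val.map (bf (d + 1 - i) a)))) 1 : Fin (d + 1) → ℕ) =
      a (idx d l) • (Pi.single (idx d l) 1 : Fin (d + 1) → ℕ) := by
    intro l hl
    rw [Finset.mem_range] at hl
    have h2 : ∀ t ∈ Ico (ps a l) (ps a (l + 1)),
        (Pi.single (idx d (le t (univ.val.map (bf (d + 1 - i) a)))) 1 : Fin (d + 1) → ℕ) =
        Pi.single (idx d l) 1 := by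
      intro t ht
      rw [Finset.mem_Ico] at ht
      rw [le_bf _ a hl ht.1 ht.2]
    rw [Finset.sum_congr rfl h2, Finset.sum_const, Nat.card_Ico, ps_succ]
    congr 1
    omega
  rw [Finset.sum_congr rfl h1]
  funext j
  rw [Finset.sum_apply]
  simp only [Pi.smul_apply, smul_eq_mul, Pi.single_apply]
  by_cases hj : j.val < i
  · rw [ha j hj]
    apply Finset.sum_eq_zero
    intro l hl
    rw [Finset.mem_range] at hl
    rw [if_neg, mul_zero]
    intro h
    have := congrArg Fin.val h
    simp only [idx] at this
    omega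
  · have hj2 := j.isLt
    rw [Finset.sum_eq_single (d - j.val)]
    · have : idx d (d - j.val) = j := by
        apply Fin.ext
        show d - (d - j.val) = j.val
        omega
      rw [this, if_pos rfl, mul_one]
    · intro l hl hne
      rw [Finset.mem_range] at hl
      rw [if_neg, mul_zero]
      intro h
      apply hne
      have := congrArg Fin.val h
      simp only [idx] at this
      omega
    · intro h
      exfalso
      apply h
      rw [Finset.mem_range]
      omega

lemma map_comp_perm {c : ℕ} {β : Type*} (f : Fin c → β) (σ : Equiv.Perm (Fin c)) :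
    univ.val.map (f ∘ σ) = univ.val.map f := by
  rw [← Multiset.map_map]
  congr 1
  have h : (Finset.univ.map σ.toEmbedding : Finset (Fin c)).val = univ.val := by
    rw [Finset.map_univ_equiv]
  rw [Finset.map_val] at h
  exact h

/-- The number of exponents outside the `N`-fold sum of `J`. -/
lemma count_bound (hJ : SS J) {M : ℕ} (hM : ∀ a : Fin (d + 1) → ℕ, M ≤ ∑ i, a i → a ∈ J)
    {i : ℕ} (hi : i < d) {N L : ℕ} (hN : 0 < N) (S : Finset (Fin (d + 1) → ℕ))
    (h0 : ∀ a ∈ S, ∀ j : Fin (d + 1), j.val < i → a j = 0)
    (hL : ∀ a ∈ S, ∀ j, a j < L)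
    (hS : ∀ a ∈ S, ¬ NS N J a) :
    (d + 1 - i).factorial * S.card ≤ N ^ (d + 1 - i) * F (d + 1 - i) (XX d M J) +
      (d + 1 - i).factorial * ((d + 1) * L ^ (d - i)) := by
  classical
  set c := d + 1 - i with hc
  -- strict and non-strict exponents
  set S1 := S.filter (fun a => StrictMono (bf c a)) with hS1
  set S2 := S.filter (fun a => ¬ StrictMono (bf c a)) with hS2
  have hcard : S.card = S1.card + S2.card :=
    (Finset.card_filter_add_card_filter_not (s := S) (fun a => StrictMono (bf c a))).symm
  have hb : ∀ a ∈ S, tab d (univ.val.map (bf c a)) = a := fun a ha =>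
    tab_bf hi.le a (h0 a ha)
  -- the values `bf c a m / N` are less than `M`
  have hX : ∀ a ∈ S, tab d (univ.val.map fun m => bf c a m / N) ∉ J := by
    intro a ha h
    apply hS a ha
    have := hJ.NS_tab hN h
    rwa [hb a ha] at this
  have hlt : ∀ a ∈ S, ∀ m, bf c a m / N < M := by
    intro a ha m
    by_contra hcon
    apply hX a ha
    apply hM
    rw [sum_tab]
    exact (not_lt.mp hcon).trans (Multiset.le_sup (Multiset.mem_map_of_mem (fun m => bf c a m / N)
      (Finset.mem_univ m)))
  -- the strict ones
  have h1 : c.factorial * S1.card ≤ N ^ c * F c (XX d M J) := by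
    let g : {a // a ∈ S1} × Equiv.Perm (Fin c) →
        {w : Fin c → Fin M // XX d M J (univ.val.map w)} × (Fin c → Fin N) := fun p =>
      (⟨fun m => ⟨bf c p.1.1 (p.2 m) / N, hlt p.1.1 (Finset.mem_filter.mp p.1.2).1 _⟩, by
        have h2 := hX p.1.1 (Finset.mem_filter.mp p.1.2).1
        unfold XX
        rw [Multiset.map_map]
        rw [← map_comp_perm _ p.2] at h2
        exact h2⟩,
      fun m => ⟨bf c p.1.1 (p.2 m) % N, Nat.mod_lt _ hN⟩)
    have hg : Function.Injective g := by
      rintro ⟨⟨a, ha⟩, σ⟩ ⟨⟨a', ha'⟩, σ'⟩ h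
      have e1 : ∀ m, bf c a (σ m) = bf c a' (σ' m) := by
        intro m
        have h2 := congrArg (fun p => (p.1.1 m).val) h
        have h3 := congrArg (fun p => (p.2 m).val) h
        simp only [g] at h2 h3
        rw [← Nat.div_add_mod (bf c a (σ m)) N, h2, h3, Nat.div_add_mod]
      have hs := (Finset.mem_filter.mp ha).2
      have hs' := (Finset.mem_filter.mp ha').2
      have hr : Set.range (bf c a) = Set.range (bf c a') := by
        ext y
        constructor
        · rintro ⟨m, rfl⟩
          exact ⟨σ' (σ.symm m), by rw [← e1]; simp⟩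
        · rintro ⟨m, rfl⟩
          exact ⟨σ (σ'.symm m), by rw [e1]; simp⟩
      have he : bf c a = bf c a' := (hs.range_inj hs').mp hr
      have ha3 : a = a' := by
        rw [← hb a (Finset.mem_filter.mp ha).1, ← hb a' (Finset.mem_filter.mp ha').1, he]
      subst ha3
      have hσ : σ = σ' := by
        ext m
        exact congrArg Fin.val (hs.injective (e1 m))
      subst hσ
      rfl
    have h2 := Fintype.card_le_of_injective g hg
    rw [Fintype.card_prod, Fintype.card_prod, Fintype.card_perm, Fintype.card_fin,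
      Fintype.card_coe, Fintype.card_fun, Fintype.card_fin, Fintype.card_fin,
      Fintype.card_subtype] at h2
    unfold F
    rw [← Finset.card_filter]
    rw [mul_comm, mul_comm (N ^ c)]
    exact h2
  -- the others
  have h2 : S2.card ≤ (d + 1) * L ^ (d - i) := by
    have hsub : S2 ⊆ (univ : Finset (Fin (d + 1))).biUnion fun l =>
        if i ≤ l.val then Fintype.piFinset
          (fun j : Fin (d + 1) => if j.val < i ∨ j = l then {0} else range L) else ∅ := by
      intro a ha
      rw [hS2, Finset.mem_filter] at ha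
      obtain ⟨haS, hns⟩ := ha
      rw [Finset.mem_biUnion]
      have hex : ∃ m, m + 1 < c ∧ a (idx d (m + 1)) = 0 := by
        by_contra hcon
        push Not at hcon
        apply hns
        have hstep : ∀ m m' : Fin c, m.val < m'.val → bf c a m < bf c a m' := by
          intro m m' hmm
          have h3 : m.val + 1 < c := lt_of_le_of_lt hmm m'.isLt
          have h4 := hcon m.val h3
          have h5 : ps a (m.val + 1 + 1) ≤ ps a (m'.val + 1) := ps_mono a (by omega)
          have h6 := ps_succ a (m.val + 1)
          unfold bf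
          omega
        exact fun m m' h => hstep m m' h
      obtain ⟨m, hm1, hm2⟩ := hex
      refine ⟨idx d (m + 1), Finset.mem_univ _, ?_⟩
      have h3 : i ≤ (idx d (m + 1)).val := by
        simp only [idx]
        omega
      rw [if_pos h3, Fintype.mem_piFinset]
      intro j
      split_ifs with h4
      · rw [Finset.mem_singleton]
        rcases h4 with h4 | h4
        · exact h0 a haS j h4
        · rw [h4]; exact hm2
      · rw [Finset.mem_range]
        exact hL a haS j
    refine (Finset.card_le_card hsub).trans ?_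
    refine Finset.card_biUnion_le.trans ?_
    have h3 : ∀ l : Fin (d + 1), (if i ≤ l.val then Fintype.piFinset
          (fun j : Fin (d + 1) => if j.val < i ∨ j = l then ({0} : Finset ℕ) else range L)
          else ∅).card ≤ L ^ (d - i) := by
      intro l
      split_ifs with hl
      · rw [Fintype.card_piFinset]
        have h4 : ∀ j : Fin (d + 1), (if j.val < i ∨ j = l then ({0} : Finset ℕ) else range L).card =
            if j.val < i ∨ j = l then 1 else L := by
          intro j
          split_ifs <;> simp
        simp only [h4]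
        rw [Finset.prod_ite, Finset.prod_const_one, one_mul, Finset.prod_const]
        apply le_of_eq
        congr 1
        have h5 : (univ.filter fun j : Fin (d + 1) => ¬ (j.val < i ∨ j = l)) =
            (Finset.Ici (⟨i, by omega⟩ : Fin (d + 1))).erase l := by
          ext j
          simp only [Finset.mem_filter, Finset.mem_univ, true_and, Finset.mem_erase,
            Finset.mem_Ici, Fin.le_def]
          push Not
          tauto
        rw [h5, Finset.card_erase_of_mem (by simpa [Fin.le_def] using hl), Fin.card_Ici]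
        simp only
        omega
      · simp
    calc ∑ l : Fin (d + 1), _ ≤ ∑ _l : Fin (d + 1), L ^ (d - i) :=
          Finset.sum_le_sum fun l _ => h3 l
      _ = (d + 1) * L ^ (d - i) := by simp
  rw [hcard, mul_add]
  exact Nat.add_le_add h1 (Nat.mul_le_mul_left _ h2)

end Pool.Agent.K1H19.Lech
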