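import Pool.Agent.K1H19.Lech.Generic
import Pool.Agent.K1H19.Lech.Count

/-!
# The Stirling refinement of Lech's inequality: assembly
-/

set_option autoImplicit false

namespace Pool.Agent.K1H19.Lech

open Finset

theorem mem_span_X (W : Type) [CommRing W] : ∀ (n : ℕ) (f : MvPowerSeries (Fin n) W),
    MvPowerSeries.constantCoeff f = 0 →
      f ∈ Ideal.span (Set.range (MvPowerSeries.X : Fin n → MvPowerSeries (Fin n) W)) := by
  intro n
  induction n with
  | zero =>
    intro f hf
    have h0 : f = 0 := by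
      ext ν
      have hν : ν = 0 := Subsingleton.elim _ _
      rw [hν, MvPowerSeries.coeff_zero_eq_constantCoeff, hf, map_zero]
    rw [h0]
    exact Ideal.zero_mem _
  | succ n ih =>
    intro f hf
    obtain ⟨e, he⟩ : ∃ e : MvPowerSeries (Fin (n + 1)) W ≃+* PowerSeries (MvPowerSeries (Fin n) W),
        e = (MvPowerSeries.finSuccEquiv W n).toRingEquiv := ⟨_, rfl⟩
    have heX : e (MvPowerSeries.X 0) = PowerSeries.X := by
      rw [he]; exact MvPowerSeries.finSuccEquiv_X_zero
    have heS : ∀ j : Fin n, e (MvPowerSeries.X j.succ) = PowerSeries.C (MvPowerSeries.X j) := by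
      intro j; rw [he]; exact MvPowerSeries.finSuccEquiv_X_succ j
    have hc : MvPowerSeries.constantCoeff (PowerSeries.constantCoeff (e f)) = 0 := by
      rw [← MvPowerSeries.coeff_zero_eq_constantCoeff_apply,
        ← PowerSeries.coeff_zero_eq_constantCoeff_apply, he]
      show MvPowerSeries.coeff 0 (PowerSeries.coeff 0 (MvPowerSeries.finSuccEquiv W n f)) = 0
      rw [MvPowerSeries.coeff_coeff_finSuccEquiv, Finsupp.cons_zero_zero,
        MvPowerSeries.coeff_zero_eq_constantCoeff_apply, hf]
    have h1 := ih _ hc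
    have h2 : (PowerSeries.X : PowerSeries (MvPowerSeries (Fin n) W)) ∣
        e f - PowerSeries.C (PowerSeries.constantCoeff (e f)) := by
      rw [PowerSeries.X_dvd_iff, map_sub, PowerSeries.constantCoeff_C, sub_self]
    obtain ⟨g, hg⟩ := h2
    have h3 : f = e.symm (PowerSeries.C (PowerSeries.constantCoeff (e f))) +
        MvPowerSeries.X 0 * e.symm g := by
      apply e.injective
      rw [map_add, map_mul, RingEquiv.apply_symm_apply, RingEquiv.apply_symm_apply, heX, ← hg]
      ring
    have h4 : ∀ a ∈ Ideal.span (Set.range (MvPowerSeries.X : Fin n → MvPowerSeries (Fin n) W)),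
        e.symm (PowerSeries.C a) ∈ Ideal.span
          (Set.range (MvPowerSeries.X : Fin (n + 1) → MvPowerSeries (Fin (n + 1)) W)) := by
      intro a ha
      have h5 : Ideal.span (Set.range (MvPowerSeries.X : Fin n → MvPowerSeries (Fin n) W)) ≤
          Ideal.comap (e.symm.toRingHom.comp PowerSeries.C) (Ideal.span
            (Set.range (MvPowerSeries.X : Fin (n + 1) → MvPowerSeries (Fin (n + 1)) W))) := by
        rw [Ideal.span_le]
        rintro _ ⟨j, rfl⟩
        have h6 : e.symm (PowerSeries.C (MvPowerSeries.X j)) = MvPowerSeries.X j.succ := by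
          rw [← heS, RingEquiv.symm_apply_apply]
        rw [SetLike.mem_coe, Ideal.mem_comap]
        show e.symm (PowerSeries.C (MvPowerSeries.X j)) ∈ Ideal.span
            (Set.range (MvPowerSeries.X : Fin (n + 1) → MvPowerSeries (Fin (n + 1)) W))
        rw [h6]
        exact Ideal.subset_span ⟨_, rfl⟩
      exact h5 ha
    rw [h3]
    exact Ideal.add_mem _ (h4 _ h1) (Ideal.mul_mem_right _ _ (Ideal.subset_span ⟨0, rfl⟩))

variable {k : Type} [Field k] {d : ℕ}

/-- the power series ring -/
abbrev PS (k : Type) [Field k] (d : ℕ) : Type := MvPowerSeries (Fin (d + 1)) k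

lemma sub_const_mem (x : PS k d) : ∃ c : k, x - algebraMap k (PS k d) c ∈
    Ideal.span (Set.range (MvPowerSeries.X : Fin (d + 1) → PS k d)) := by
  refine ⟨MvPowerSeries.constantCoeff x, mem_span_X k _ _ ?_⟩
  rw [map_sub]
  have : algebraMap k (PS k d) (MvPowerSeries.constantCoeff x) =
      MvPowerSeries.C (MvPowerSeries.constantCoeff x) := rfl
  rw [this, MvPowerSeries.constantCoeff_C, sub_self]

lemma length_eq (V : Type) [AddCommGroup V] [Module (PS k d) V] [Module k V]
    [IsScalarTower k (PS k d) V] : Module.length (PS k d) V = Module.length k V := by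
  have hloc : IsLocalHom (algebraMap k (PS k d)) := inferInstance
  have h := IsLocalRing.length_restrictScalars k (PS k d) V
  have hsurj : Function.Surjective (algebraMap (IsLocalRing.ResidueField k)
      (IsLocalRing.ResidueField (PS k d))) := by
    intro y
    obtain ⟨x, rfl⟩ := IsLocalRing.residue_surjective y
    refine ⟨IsLocalRing.residue k (MvPowerSeries.constantCoeff x), ?_⟩
    rw [IsLocalRing.ResidueField.algebraMap_residue]
    rw [← sub_eq_zero, ← map_sub, IsLocalRing.residue_eq_zero_iff, IsLocalRing.mem_maximalIdeal,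
      mem_nonunits_iff, MvPowerSeries.isUnit_iff_constantCoeff, map_sub]
    have : algebraMap k (PS k d) (MvPowerSeries.constantCoeff x) =
      MvPowerSeries.C (MvPowerSeries.constantCoeff x) := rfl
    rw [this, MvPowerSeries.constantCoeff_C, sub_self]
    exact not_isUnit_zero
  have h1 : Module.length (IsLocalRing.ResidueField k) (IsLocalRing.ResidueField (PS k d)) = 1 := by
    rw [Module.length_eq_of_surjective (R := IsLocalRing.ResidueField (PS k d)) hsurj]
    exact Module.length_eq_one _ _
  rw [h1, mul_one] at h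
  exact h.symm

/-- dimension of a quotient spanned by monomials -/
lemma finrank_quot (K : Ideal (PS k d)) (z : Fin (d + 1) → PS k d) (S : Finset (Fin (d + 1) → ℕ))
    (h : Submodule.span k (mon z '' (S : Set (Fin (d + 1) → ℕ))) ⊔ K.restrictScalars k = ⊤) :
    Module.Finite k (PS k d ⧸ K) ∧ Module.finrank k (PS k d ⧸ K) ≤ S.card := by
  classical
  let q : PS k d →ₗ[k] (PS k d ⧸ K) := (Ideal.Quotient.mkₐ k K).toLinearMap
  have hq : Function.Surjective q := Ideal.Quotient.mkₐ_surjective k K
  have h1 : Submodule.span k ((S.image fun a => q (mon z a) : Finset (PS k d ⧸ K)) :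
      Set (PS k d ⧸ K)) = ⊤ := by
    rw [eq_top_iff]
    intro y _
    obtain ⟨x, rfl⟩ := hq y
    have hx : x ∈ Submodule.span k (mon z '' (S : Set (Fin (d + 1) → ℕ))) ⊔
      K.restrictScalars k := by rw [h]; trivial
    obtain ⟨u, hu, v, hv, rfl⟩ := Submodule.mem_sup.mp hx
    have hv0 : q v = 0 := Ideal.Quotient.eq_zero_iff_mem.mpr hv
    rw [map_add, hv0, add_zero]
    have h2 : q u ∈ Submodule.map q (Submodule.span k (mon z '' (S : Set (Fin (d + 1) → ℕ)))) :=
      Submodule.mem_map_of_mem hu
    rw [Submodule.map_span] at h2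
    refine Submodule.span_mono ?_ h2
    rintro _ ⟨_, ⟨a, ha, rfl⟩, rfl⟩
    rw [Finset.coe_image]
    exact ⟨a, ha, rfl⟩
  refine ⟨⟨⟨_, h1⟩⟩, ?_⟩
  have h2 := finrank_span_finset_le_card (R := k) (S.image fun a => q (mon z a))
  rw [Set.finrank, h1, finrank_top] at h2
  exact h2.trans Finset.card_image_le

lemma length_quot (K : Ideal (PS k d)) [Module.Finite k (PS k d ⧸ K)] :
    (Module.length (PS k d) (PS k d ⧸ K)).toNat = Module.finrank k (PS k d ⧸ K) := by
  rw [length_eq, Module.length_eq_finrank]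
  rfl

/-- the `d × d` minor -/
noncomputable def minor (k : Type) [Field k] (d : ℕ) : MvPolynomial (Fin d × Fin (d + 1)) k :=
  (Matrix.of fun j t : Fin d => (MvPolynomial.X (j, t.succ) :
    MvPolynomial (Fin d × Fin (d + 1)) k)).det

lemma eval_minor (c : Fin d → Fin (d + 1) → k) :
    MvPolynomial.eval (fun p => c p.1 p.2) (minor k d) =
      (Matrix.of fun j t : Fin d => c j t.succ).det := by
  unfold minor
  rw [RingHom.map_det]
  congr 1
  ext j t
  simp

lemma minor_ne_zero : minor k d ≠ 0 := by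
  intro h
  have h1 := eval_minor (k := k) (d := d) (fun j t => if t = j.succ then 1 else 0)
  rw [h, map_zero] at h1
  have h2 : (Matrix.of fun j t : Fin d => (if t.succ = j.succ then (1 : k) else 0)) = 1 := by
    ext j t
    simp only [Matrix.of_apply, Fin.succ_inj, Matrix.one_apply, eq_comm]
  rw [h2, Matrix.det_one] at h1
  exact zero_ne_one h1

/-- the special linear forms -/
noncomputable def zc (c : Fin d → Fin (d + 1) → k) : Fin (d + 1) → PS k d :=
  zz (fun j t => algebraMap k (PS k d) (c j t)) MvPowerSeries.X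

lemma span_zc_le (c : Fin d → Fin (d + 1) → k) :
    Ideal.span (Set.range (zc c)) ≤
      Ideal.span (Set.range (MvPowerSeries.X : Fin (d + 1) → PS k d)) := by
  rw [Ideal.span_le]
  rintro _ ⟨j, rfl⟩
  unfold zc zz
  split_ifs with h
  · apply Ideal.sum_mem
    intro t _
    exact Ideal.mul_mem_left _ _ (Ideal.subset_span ⟨t, rfl⟩)
  · exact Ideal.subset_span ⟨0, rfl⟩

lemma le_span_zc (c : Fin d → Fin (d + 1) → k)
    (hc : MvPolynomial.eval (fun p => c p.1 p.2) (minor k d) ≠ 0) :
    Ideal.span (Set.range (MvPowerSeries.X : Fin (d + 1) → PS k d)) ≤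
      Ideal.span (Set.range (zc c)) := by
  rw [eval_minor] at hc
  set Mx : Matrix (Fin d) (Fin d) k := Matrix.of fun j t : Fin d => c j t.succ with hMx
  set 𝔞 := Ideal.span (Set.range (zc c)) with h𝔞
  have h0 : (MvPowerSeries.X 0 : PS k d) ∈ 𝔞 := by
    have : zc c (Fin.last d) = MvPowerSeries.X 0 := by
      unfold zc zz
      rw [dif_neg (by simp)]
    rw [← this]
    exact Ideal.subset_span ⟨_, rfl⟩
  -- the other combinations
  have h1 : ∀ j : Fin d, ∑ t : Fin d, algebraMap k (PS k d) (Mx j t) * MvPowerSeries.X t.succ ∈ 𝔞 := by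
    intro j
    have h2 : zc c j.castSucc ∈ 𝔞 := Ideal.subset_span ⟨_, rfl⟩
    have h3 : zc c j.castSucc = algebraMap k (PS k d) (c j 0) * MvPowerSeries.X 0 +
        ∑ t : Fin d, algebraMap k (PS k d) (Mx j t) * MvPowerSeries.X t.succ := by
      unfold zc zz
      rw [dif_pos (by simp), Fin.sum_univ_succ]
      rfl
    rw [h3] at h2
    have h4 := Ideal.sub_mem _ h2 (Ideal.mul_mem_left _ (algebraMap k (PS k d) (c j 0)) h0)
    rwa [add_sub_cancel_left] at h4
  rw [Ideal.span_le]
  rintro _ ⟨t, rfl⟩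
  refine Fin.cases h0 (fun t => ?_) t
  -- multiply by the adjugate
  have h2 : ∑ j : Fin d, algebraMap k (PS k d) (Mx.adjugate t j) *
      (∑ s : Fin d, algebraMap k (PS k d) (Mx j s) * MvPowerSeries.X s.succ) ∈ 𝔞 :=
    Ideal.sum_mem _ fun j _ => Ideal.mul_mem_left _ _ (h1 j)
  have h3 : ∑ j : Fin d, algebraMap k (PS k d) (Mx.adjugate t j) *
      (∑ s : Fin d, algebraMap k (PS k d) (Mx j s) * MvPowerSeries.X s.succ) =
      algebraMap k (PS k d) Mx.det * MvPowerSeries.X t.succ := by
    calc _ = ∑ s : Fin d, (algebraMap k (PS k d) (∑ j, Mx.adjugate t j * Mx j s)) *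
          MvPowerSeries.X s.succ := by
          simp only [Finset.mul_sum, map_sum, map_mul, Finset.sum_mul]
          rw [Finset.sum_comm]
          refine Finset.sum_congr rfl fun s _ => Finset.sum_congr rfl fun j _ => ?_
          ring
      _ = ∑ s : Fin d, (algebraMap k (PS k d) ((Mx.adjugate * Mx) t s)) *
          MvPowerSeries.X s.succ := by
          refine Finset.sum_congr rfl fun s _ => ?_
          rw [Matrix.mul_apply]
      _ = _ := by
          rw [Matrix.adjugate_mul, Finset.sum_eq_single t]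
          · simp
          · intro s _ hs
            rw [Matrix.smul_apply, Matrix.one_apply_ne (Ne.symm hs), smul_zero, map_zero, zero_mul]
          · simp
  rw [h3] at h2
  have h4 := Ideal.mul_mem_left 𝔞 (algebraMap k (PS k d) Mx.det⁻¹) h2
  rwa [← mul_assoc, ← map_mul, inv_mul_cancel₀ hc, map_one, one_mul] at h4

/-- the limit -/
lemma limit_le (c M κ : ℕ) (D Fc cf : ℝ) (hc : 1 ≤ c) (u : ℕ → ℝ) (e : ℝ)
    (hu : ∀ N : ℕ, 1 ≤ N → u N ≤ ((N + κ : ℕ) : ℝ) ^ c * Fc + cf * (D * ((N * M : ℕ) : ℝ) ^ (c - 1)))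
    (h : Filter.Tendsto (fun N : ℕ => u N / (N : ℝ) ^ c) Filter.atTop (nhds e)) : e ≤ Fc := by
  have h1 : Filter.Tendsto (fun N : ℕ => (1 + (κ : ℝ) / (N : ℝ)) ^ c * Fc +
      cf * D * (M : ℝ) ^ (c - 1) / (N : ℝ)) Filter.atTop (nhds ((1 + 0) ^ c * Fc + 0)) := by
    apply Filter.Tendsto.add
    · apply Filter.Tendsto.mul_const
      apply Filter.Tendsto.pow
      apply Filter.Tendsto.const_add
      exact tendsto_const_div_atTop_nhds_zero_nat _
    · exact tendsto_const_div_atTop_nhds_zero_nat _
  rw [add_zero, add_zero, one_pow, one_mul] at h1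
  refine le_of_tendsto_of_tendsto h h1 ?_
  filter_upwards [Filter.eventually_ge_atTop 1] with N hN
  have hN' : (0 : ℝ) < (N : ℝ) := by exact_mod_cast hN
  rw [div_le_iff₀ (pow_pos hN' c)]
  refine (hu N hN).trans (le_of_eq ?_)
  obtain ⟨c', rfl⟩ : ∃ c', c = c' + 1 := ⟨c - 1, by omega⟩
  rw [Nat.add_sub_cancel]
  push_cast
  have e1 : (1 + (κ : ℝ) / N) = (N + κ) / N := by field_simp
  rw [e1, div_pow, mul_pow]
  field_simp
  ring

end Pool.Agent.K1H19.Lech
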