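import Pool.Agent.K1H19.Lech.Closure

/-!
# The leading exponents of an ideal with respect to a generic flag

`B` is a finite-dimensional algebra over the field `k` (the quotient by the ideal) and
`ξ : Fin (d + 1) → B` (the images of the variables). In `B[c]`, with variables `c (j, t)`, we have the
generic linear forms `gz ξ j = ∑ t, c (j, t) ξ t` for `j < d`, and `gz ξ d = ξ 0`.
-/

set_option autoImplicit false

namespace Pool.Agent.K1H19.Lech

open Finset

variable {d : ℕ}

/-- the linear forms with coefficients `c j` and the form `ξ 0` -/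
def zz {A : Type*} [CommRing A] (c : Fin d → Fin (d + 1) → A) (ξ : Fin (d + 1) → A) :
    Fin (d + 1) → A :=
  fun j => if h : j.val < d then ∑ t, c ⟨j.val, h⟩ t * ξ t else ξ 0

lemma map_zz {A A' : Type*} [CommRing A] [CommRing A'] (f : A →+* A')
    (c : Fin d → Fin (d + 1) → A) (ξ : Fin (d + 1) → A) :
    (fun j => f (zz c ξ j)) = zz (fun j t => f (c j t)) (fun t => f (ξ t)) := by
  funext j
  unfold zz
  split_ifs with h
  · simp
  · rfl

variable {k : Type} [Field k] {B : Type} [CommRing B] [Algebra k B]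

/-- the generic linear forms -/
noncomputable def gz (ξ : Fin (d + 1) → B) : Fin (d + 1) → MvPolynomial (Fin d × Fin (d + 1)) B :=
  zz (fun j t => MvPolynomial.X (j, t)) (fun t => MvPolynomial.C (ξ t))

variable (k) in
/-- the leading exponents of the zero ideal of `B` for the generic flag -/
def Jg (ξ : Fin (d + 1) → B) : Set (Fin (d + 1) → ℕ) :=
  {a | ∃ D : MvPolynomial (Fin d × Fin (d + 1)) k, D ≠ 0 ∧
    MvPolynomial.map (algebraMap k B) D * mon (gz ξ) a ∈ Q (gz ξ) a}

lemma Jg_up (ξ : Fin (d + 1) → B) (a b : Fin (d + 1) → ℕ) (ha : a ∈ Jg k ξ) (hab : a ≤ b) :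
    b ∈ Jg k ξ := by
  obtain ⟨D, hD, h⟩ := ha
  refine ⟨D, hD, ?_⟩
  obtain ⟨b', rfl⟩ : ∃ b', b = b' + a := ⟨b - a, (tsub_add_cancel_of_le hab).symm⟩
  have := mon_mul_Q (gz ξ) b' a h
  rw [mon_add]
  convert this using 1
  ring

lemma Jg_big (ξ : Fin (d + 1) → B) (M : ℕ) (hM : Ideal.span (Set.range ξ) ^ M = ⊥)
    (a : Fin (d + 1) → ℕ) (ha : M ≤ ∑ i, a i) : a ∈ Jg k ξ := by
  refine ⟨1, one_ne_zero, ?_⟩
  have h1 : Ideal.span (Set.range (gz ξ)) ≤
      Ideal.map (MvPolynomial.C (σ := Fin d × Fin (d + 1))) (Ideal.span (Set.range ξ)) := by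
    rw [Ideal.span_le]
    rintro _ ⟨j, rfl⟩
    unfold gz zz
    split_ifs with h
    · apply Ideal.sum_mem
      intro t _
      exact Ideal.mul_mem_left _ _ (Ideal.mem_map_of_mem _ (Ideal.subset_span ⟨t, rfl⟩))
    · exact Ideal.mem_map_of_mem _ (Ideal.subset_span ⟨0, rfl⟩)
  have h2 : mon (gz ξ) a = 0 := by
    have h3 := mon_mem_pow (gz ξ) a
    have h4 : Ideal.span (Set.range (gz ξ)) ^ (∑ i, a i) ≤ ⊥ := by
      refine (Ideal.pow_le_pow_right ha).trans ((Ideal.pow_right_mono h1 M).trans ?_)
      rw [← Ideal.map_pow, hM, Ideal.map_bot]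
    exact (Ideal.mem_bot).mp (h4 h3)
  rw [h2, mul_zero]
  exact Ideal.zero_mem _

section move

variable (ξ : Fin (d + 1) → B) (j i : Fin (d + 1))

/-- the coefficients of the `i`-th form -/
noncomputable def row (B : Type) [CommRing B] (i : Fin (d + 1)) (t : Fin (d + 1)) :
    MvPolynomial (Fin d × Fin (d + 1)) B :=
  if h : i.val < d then MvPolynomial.X (⟨i.val, h⟩, t) else if t = 0 then 1 else 0

lemma sum_row : ∑ t, row B i t * MvPolynomial.C (ξ t) = gz ξ i := by
  unfold row gz zz
  split_ifs with h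
  · rfl
  · simp

/-- the substitution which replaces the `j`-th form `z j` by `z j + T z i` -/
noncomputable def Phi (B : Type) [CommRing B] (j i : Fin (d + 1)) :
    MvPolynomial (Fin d × Fin (d + 1)) B →+*
    Polynomial (MvPolynomial (Fin d × Fin (d + 1)) B) :=
  MvPolynomial.eval₂Hom (Polynomial.C.comp MvPolynomial.C)
    (fun p => Polynomial.C (MvPolynomial.X p) +
      if p.1.val = j.val then Polynomial.X * Polynomial.C (row B i p.2) else 0)

lemma Phi_C (b : B) : Phi B j i (MvPolynomial.C b) = Polynomial.C (MvPolynomial.C b) := by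
  simp [Phi]

lemma Phi_X (p : Fin d × Fin (d + 1)) : Phi B j i (MvPolynomial.X p) =
    Polynomial.C (MvPolynomial.X p) +
      if p.1.val = j.val then Polynomial.X * Polynomial.C (row B i p.2) else 0 := by
  simp [Phi]

lemma Phi_gz_of_ne {l : Fin (d + 1)} (h : l ≠ j) :
    Phi B j i (gz ξ l) = Polynomial.C (gz ξ l) := by
  have hl : l.val ≠ j.val := fun e => h (Fin.ext e)
  unfold gz zz
  split_ifs with h1
  · rw [map_sum, map_sum]
    refine Finset.sum_congr rfl fun t _ => ?_
    rw [map_mul, map_mul, Phi_X, Phi_C, if_neg hl, add_zero]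
  · rw [Phi_C]

lemma Phi_gz_self (hji : j < i) :
    Phi B j i (gz ξ j) = Polynomial.C (gz ξ j) + Polynomial.X * Polynomial.C (gz ξ i) := by
  have hj : j.val < d := by
    have := i.isLt
    have : j.val < i.val := hji
    omega
  rw [← sum_row ξ i, map_sum, Finset.mul_sum]
  unfold gz zz
  rw [dif_pos hj, map_sum, map_sum, ← Finset.sum_add_distrib]
  refine Finset.sum_congr rfl fun t _ => ?_
  rw [map_mul, map_mul, Phi_X, Phi_C, if_pos rfl, map_mul]
  ring

lemma coeff_zero_Phi (F : MvPolynomial (Fin d × Fin (d + 1)) B) :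
    (Phi B j i F).coeff 0 = F := by
  have : (Polynomial.evalRingHom 0).comp (Phi B j i) = RingHom.id _ := by
    apply MvPolynomial.ringHom_ext
    · intro b
      simp [Phi_C]
    · intro p
      rw [RingHom.comp_apply, Phi_X]
      split_ifs <;> simp
  have h2 := RingHom.congr_fun this F
  rw [Polynomial.coeff_zero_eq_eval_zero]
  exact h2

/-- `e` with the `j`-th entry replaced by `0` -/
def era (j : Fin (d + 1)) (e : Fin (d + 1) → ℕ) : Fin (d + 1) → ℕ := fun m => if m = j then 0 else e m

lemma mon_era {A : Type*} [CommRing A] (z : Fin (d + 1) → A) (e : Fin (d + 1) → ℕ) :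
    mon z e = z j ^ e j * mon z (era j e) := by
  unfold mon era
  rw [← Finset.mul_prod_erase _ _ (Finset.mem_univ j),
    ← Finset.mul_prod_erase Finset.univ (fun i => z i ^ (if i = j then 0 else e i))
      (Finset.mem_univ j), if_pos rfl, pow_zero, one_mul]
  congr 1
  refine Finset.prod_congr rfl fun m hm => ?_
  rw [if_neg (Finset.ne_of_mem_erase hm)]

lemma mon_move {A : Type*} [CommRing A] (z : Fin (d + 1) → A) (e : Fin (d + 1) → ℕ) (hji : j ≠ i) :
    mon z (move j i e) = z i ^ e j * mon z (era j e) := by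
  have h1 : move j i e = era j e + e j • Pi.single i 1 := by
    funext m
    simp only [move, era, Pi.add_apply, Pi.smul_apply, smul_eq_mul, Pi.single_apply]
    by_cases h1 : m = j
    · subst h1
      rw [if_pos rfl, if_pos rfl, if_neg hji, mul_zero, add_zero]
    · rw [if_neg h1, if_neg h1]
      split_ifs with h2
      · subst h2; ring
      · ring
  rw [h1, mon_add, mul_comm]
  congr 1
  have h2 : ∀ q : ℕ, mon z (q • (Pi.single i 1 : Fin (d + 1) → ℕ)) = z i ^ q := by
    intro q
    induction q with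
    | zero => rw [zero_smul, pow_zero, mon_zero]
    | succ q ih => rw [succ_nsmul, mon_add, ih, mon_single, pow_succ]
  exact h2 _

lemma Phi_mon_era (e : Fin (d + 1) → ℕ) :
    Phi B j i (mon (gz ξ) (era j e)) = Polynomial.C (mon (gz ξ) (era j e)) := by
  unfold mon
  rw [map_prod, map_prod]
  refine Finset.prod_congr rfl fun m _ => ?_
  by_cases h : m = j
  · subst h
    simp [era]
  · rw [map_pow, map_pow, Phi_gz_of_ne ξ j i h]

/-- the ideal of polynomials whose coefficients of degree at most `s` lie in `Q'` -/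
noncomputable def NN (B : Type) [CommRing B] (Q' : Ideal (MvPolynomial (Fin d × Fin (d + 1)) B))
    (s : ℕ) :
    Ideal (Polynomial (MvPolynomial (Fin d × Fin (d + 1)) B)) :=
  Ideal.map Polynomial.C Q' ⊔ Ideal.span {Polynomial.X ^ (s + 1)}

lemma coeff_NN {Q' : Ideal (MvPolynomial (Fin d × Fin (d + 1)) B)} {s : ℕ}
    {G : Polynomial (MvPolynomial (Fin d × Fin (d + 1)) B)} (h : G ∈ NN B Q' s) :
    G.coeff s ∈ Q' := by
  obtain ⟨u, hu, v, hv, rfl⟩ := Submodule.mem_sup.mp h
  rw [Polynomial.coeff_add]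
  refine Ideal.add_mem _ (Ideal.mem_map_C_iff.mp hu s) ?_
  rw [Ideal.mem_span_singleton'] at hv
  obtain ⟨w, rfl⟩ := hv
  rw [Polynomial.coeff_mul_X_pow', if_neg (by omega)]
  exact Ideal.zero_mem _

/-- the leading part of the substitution -/
lemma Phi_mon (hji : j < i) (e : Fin (d + 1) → ℕ)
    {Q' : Ideal (MvPolynomial (Fin d × Fin (d + 1)) B)} {s : ℕ}
    (h : mon (gz ξ) (era j e + Pi.single j 1) ∈ Q') :
    Phi B j i (mon (gz ξ) e) -
      Polynomial.X ^ (e j) * Polynomial.C (mon (gz ξ) (move j i e)) ∈ NN B Q' s := by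
  rw [mon_era j (gz ξ) e, map_mul, map_pow, Phi_gz_self ξ j i hji, Phi_mon_era,
    mon_move j i (gz ξ) e (ne_of_lt hji)]
  have h1 : (Polynomial.C (gz ξ j) + Polynomial.X * Polynomial.C (gz ξ i)) -
      Polynomial.X * Polynomial.C (gz ξ i) = Polynomial.C (gz ξ j) := by ring
  obtain ⟨w, hw⟩ := sub_dvd_pow_sub_pow
    (Polynomial.C (gz ξ j) + Polynomial.X * Polynomial.C (gz ξ i))
    (Polynomial.X * Polynomial.C (gz ξ i)) (e j)
  rw [h1] at hw
  have h2 : (Polynomial.C (gz ξ j) + Polynomial.X * Polynomial.C (gz ξ i)) ^ e j *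
      Polynomial.C (mon (gz ξ) (era j e)) -
      Polynomial.X ^ e j * Polynomial.C (gz ξ i ^ e j * mon (gz ξ) (era j e)) =
      w * Polynomial.C (mon (gz ξ) (era j e + Pi.single j 1)) := by
    rw [mon_add, mon_single, map_mul, map_mul, map_pow]
    calc _ = ((Polynomial.C (gz ξ j) + Polynomial.X * Polynomial.C (gz ξ i)) ^ e j -
        (Polynomial.X * Polynomial.C (gz ξ i)) ^ e j) * Polynomial.C (mon (gz ξ) (era j e)) := by
          ring
      _ = _ := by rw [hw]; ring
  rw [h2]
  apply Submodule.mem_sup_left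
  exact Ideal.mul_mem_left _ _ (Ideal.mem_map_of_mem _ h)

lemma era_mem (hji : j < i) {a e : Fin (d + 1) → ℕ} (h : ∀ m < j, a m ≤ e m) :
    mon (gz ξ) (era j e + Pi.single j 1) ∈ Q (gz ξ) (move j i a) := by
  apply mon_mem_Q_of_lt (gz ξ) j
  · intro m hm
    simp only [move, era, Pi.add_apply]
    rw [if_neg (ne_of_lt hm), if_neg (ne_of_lt (hm.trans hji)), if_neg (ne_of_lt hm),
      Pi.single_eq_of_ne (ne_of_lt hm), add_zero]
    exact h m hm
  · simp [move, era]

lemma Phi_gen_mem (hji : j < i) (a : Fin (d + 1) → ℕ) (l : Fin (d + 1)) :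
    Phi B j i (gen (gz ξ) a l) ∈ NN B (Q (gz ξ) (move j i a)) (a j) := by
  rw [gen_eq_mon]
  rcases lt_or_ge l j with hl | hl
  · -- nothing happens
    have h1 : era j (gexp a 0 l) = gexp a 0 l := by
      funext m
      simp only [era, gexp, Pi.add_apply, zero_add]
      split_ifs with h1 h2
      · exfalso; rw [h1] at h2; exact absurd h2 (not_le.mpr hl)
      · rw [h1, Pi.single_eq_of_ne (ne_of_gt hl)]
      · rfl
      · rfl
    have h2 : Phi B j i (mon (gz ξ) (gexp a 0 l)) = Polynomial.C (mon (gz ξ) (gexp a 0 l)) := by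
      rw [← h1, Phi_mon_era]
    rw [h2]
    apply Submodule.mem_sup_left
    apply Ideal.mem_map_of_mem
    have h3 : gexp a 0 l = gexp (move j i a) 0 l := by
      funext m
      simp only [gexp, Pi.add_apply, zero_add, move]
      congr 1
      split_ifs with h4 h5 h6
      · rw [h5] at h4; exact absurd h4 (not_le.mpr hl)
      · rw [h6] at h4; exact absurd h4 (not_le.mpr (hl.trans hji))
      · rfl
      · rfl
    rw [h3, ← gen_eq_mon]
    exact gen_mem _ _ _
  · have hlt : ∀ m < j, a m ≤ gexp a 0 l m := by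
      intro m hm
      simp only [gexp, Pi.add_apply, zero_add]
      rw [if_pos ((le_of_lt hm).trans hl)]
      omega
    have h1 := Phi_mon ξ j i hji (gexp a 0 l) (s := a j) (era_mem ξ j i hji hlt)
    have h2 : Polynomial.X ^ (gexp a 0 l j) * Polynomial.C (mon (gz ξ) (move j i (gexp a 0 l))) ∈
        NN B (Q (gz ξ) (move j i a)) (a j) := by
      rcases hl.lt_or_eq with hl' | hl'
      · apply Submodule.mem_sup_left
        apply Ideal.mul_mem_left
        apply Ideal.mem_map_of_mem
        apply mon_mem_Q_of_lt (gz ξ) l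
        · intro m hm
          simp only [move, gexp, Pi.add_apply, zero_add]
          split_ifs with h3 h4 h5 <;> omega
        · simp only [move, gexp, Pi.add_apply, zero_add]
          rw [if_neg (ne_of_gt hl'), if_neg (ne_of_gt hl'), Pi.single_eq_same, if_pos le_rfl,
            if_pos hl'.le, Pi.single_eq_of_ne (ne_of_lt hl')]
          split_ifs with h3 h4 <;> first | omega | (subst h3; simp)
      · apply Submodule.mem_sup_right
        rw [Ideal.mem_span_singleton']
        subst hl'
        refine ⟨Polynomial.C (mon (gz ξ) (move j i (gexp a 0 j))), ?_⟩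
        have : gexp a 0 j j = a j + 1 := by
          simp only [gexp, Pi.add_apply, zero_add, Pi.single_eq_same, if_pos le_rfl]
          ring
        rw [this, mul_comm]
    have h3 := Ideal.add_mem _ h1 h2
    rwa [sub_add_cancel] at h3

lemma Jg_move (hji : j < i) (a : Fin (d + 1) → ℕ) (ha : a ∈ Jg k ξ) : move j i a ∈ Jg k ξ := by
  obtain ⟨D, hD, h⟩ := ha
  refine ⟨D, hD, ?_⟩
  set Q' := Q (gz ξ) (move j i a) with hQ'
  have h1 : Phi B j i (MvPolynomial.map (algebraMap k B) D * mon (gz ξ) a) ∈ NN B Q' (a j) := by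
    have h2 : Ideal.map (Phi B j i) (Q (gz ξ) a) ≤ NN B Q' (a j) := by
      unfold Q
      rw [Ideal.map_span, Ideal.span_le]
      rintro _ ⟨_, ⟨l, rfl⟩, rfl⟩
      exact Phi_gen_mem ξ j i hji a l
    exact h2 (Ideal.mem_map_of_mem _ h)
  have h2 := Phi_mon ξ j i hji a (s := a j) (Q' := Q') (era_mem ξ j i hji fun m _ => le_rfl)
  rw [map_mul] at h1
  have h3 : Phi B j i (MvPolynomial.map (algebraMap k B) D) *
      (Polynomial.X ^ (a j) * Polynomial.C (mon (gz ξ) (move j i a))) ∈ NN B Q' (a j) := by
    have h4 := Ideal.sub_mem _ h1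
      (Ideal.mul_mem_left _ (Phi B j i (MvPolynomial.map (algebraMap k B) D)) h2)
    convert h4 using 1
    ring
  have h5 := coeff_NN h3
  have h6 : (Phi B j i (MvPolynomial.map (algebraMap k B) D) *
      (Polynomial.X ^ (a j) * Polynomial.C (mon (gz ξ) (move j i a)))).coeff (a j) =
      MvPolynomial.map (algebraMap k B) D * mon (gz ξ) (move j i a) := by
    rw [← mul_assoc, Polynomial.coeff_mul_C]
    have := Polynomial.coeff_mul_X_pow (Phi B j i (MvPolynomial.map (algebraMap k B) D)) (a j) 0
    rw [zero_add] at this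
    rw [this, coeff_zero_Phi]
  rwa [h6] at h5

end move

attribute [local instance] MvPolynomial.algebraMvPolynomial in
lemma finrank_MvPolynomial (σ : Type) :
    Module.finrank (MvPolynomial σ k) (MvPolynomial σ B) = Module.finrank k B := by
  have h : Algebra.IsPushout k (MvPolynomial σ k) B (MvPolynomial σ B) := inferInstance
  exact (h.1.equiv.finrank_eq).symm.trans Module.finrank_baseChange

attribute [local instance] MvPolynomial.algebraMvPolynomial in
lemma finite_MvPolynomial (σ : Type) [Module.Finite k B] :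
    Module.Finite (MvPolynomial σ k) (MvPolynomial σ B) := by
  have h : Algebra.IsPushout k (MvPolynomial σ k) B (MvPolynomial σ B) := inferInstance
  exact Module.Finite.equiv h.1.equiv

attribute [local instance] MvPolynomial.algebraMvPolynomial in
/-- there are at most `dim B` exponents which are not leading exponents -/
lemma card_le_finrank [Module.Finite k B] (ξ : Fin (d + 1) → B) (S : Finset (Fin (d + 1) → ℕ))
    (hS : ∀ a ∈ S, a ∉ Jg k ξ) : S.card ≤ Module.finrank k B := by
  classical
  have hfin := finite_MvPolynomial (k := k) (B := B) (Fin d × Fin (d + 1))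
  have hli : LinearIndependent (MvPolynomial (Fin d × Fin (d + 1)) k)
      (fun a : S => mon (gz ξ) a.1) := by
    rw [Fintype.linearIndependent_iff]
    intro g hg
    by_contra hcon
    push Not at hcon
    obtain ⟨i0, hi0⟩ := hcon
    obtain ⟨a, ha, hmin⟩ := Finset.exists_min_image
      ((univ : Finset S).filter fun a => g a ≠ 0) (fun a : S => toLex a.1)
      ⟨i0, by simpa using hi0⟩
    rw [Finset.mem_filter] at ha
    apply hS a.1 a.2
    refine ⟨g a, ha.2, ?_⟩
    rw [← Finset.add_sum_erase _ _ (Finset.mem_univ a)] at hg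
    have h1 : MvPolynomial.map (algebraMap k B) (g a) * mon (gz ξ) a.1 =
        - ∑ x ∈ (univ : Finset S).erase a, g x • mon (gz ξ) x.1 := by
      rw [eq_neg_iff_add_eq_zero]
      exact hg
    rw [h1]
    refine Submodule.neg_mem _ ?_
    apply Ideal.sum_mem
    intro x hx
    by_cases hgx : g x = 0
    · rw [hgx, zero_smul]; exact Ideal.zero_mem _
    · rw [Algebra.smul_def]
      apply Ideal.mul_mem_left
      apply mon_mem_Q
      have h2 := hmin x (by simpa using hgx)
      apply lt_of_le_of_ne h2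
      intro e
      exact Finset.ne_of_mem_erase hx (Subtype.ext (toLex.injective e)).symm
  have h1 := hli.fintype_card_le_finrank
  rw [finrank_MvPolynomial, Fintype.card_coe] at h1
  exact h1

/-- the leading exponents of the zero ideal: admissibility -/
lemma Jg_adm (ξ : Fin (d + 1) → B) (M : ℕ) (hM : Ideal.span (Set.range ξ) ^ M = ⊥) :
    Adm (Jg k ξ) M where
  up := Jg_up ξ
  big := fun a ha => Jg_big ξ M hM a ha
  mv := fun a j i ha hji => Jg_move ξ j i hji a ha

/-- specialization of the generic relation -/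
lemma special (ξ : Fin (d + 1) → B) (c : Fin d → Fin (d + 1) → k) {a : Fin (d + 1) → ℕ}
    {D : MvPolynomial (Fin d × Fin (d + 1)) k} (hD : MvPolynomial.eval (fun p => c p.1 p.2) D ≠ 0)
    (h : MvPolynomial.map (algebraMap k B) D * mon (gz ξ) a ∈ Q (gz ξ) a) :
    mon (zz (fun j t => algebraMap k B (c j t)) ξ) a ∈
      Q (zz (fun j t => algebraMap k B (c j t)) ξ) a := by
  set ev : MvPolynomial (Fin d × Fin (d + 1)) B →+* B :=
    MvPolynomial.eval (fun p => algebraMap k B (c p.1 p.2)) with hev
  have hz : (fun j => ev (gz ξ j)) = zz (fun j t => algebraMap k B (c j t)) ξ := by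
    unfold gz
    rw [map_zz]
    congr 1
    · funext j t
      simp [hev]
    · funext t
      simp [hev]
  have h1 : ev (MvPolynomial.map (algebraMap k B) D * mon (gz ξ) a) ∈
      Ideal.map ev (Q (gz ξ) a) := Ideal.mem_map_of_mem _ h
  rw [map_Q, map_mul, map_mon, hz] at h1
  have h2 : ev (MvPolynomial.map (algebraMap k B) D) =
      algebraMap k B (MvPolynomial.eval (fun p => c p.1 p.2) D) := by
    clear hD h h1
    rw [hev]
    induction D using MvPolynomial.induction_on with
    | C r => simp
    | add p q hp hq => rw [map_add, map_add, map_add, map_add, hp, hq]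
    | mul_X p i hp => rw [map_mul, map_mul, map_mul, map_mul, hp]; simp
  rw [h2] at h1
  have h3 : algebraMap k B (MvPolynomial.eval (fun p => c p.1 p.2) D)⁻¹ *
      (algebraMap k B (MvPolynomial.eval (fun p => c p.1 p.2) D) *
        mon (zz (fun j t => algebraMap k B (c j t)) ξ) a) ∈
      Q (zz (fun j t => algebraMap k B (c j t)) ξ) a := Ideal.mul_mem_left _ _ h1
  rwa [← mul_assoc, ← map_mul, inv_mul_cancel₀ hD, map_one, one_mul] at h3

end Pool.Agent.K1H19.Lech
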