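import Pool.Agent.K1H19.Lech.Final

/-!
# The Stirling refinement of Lech's inequality
-/

set_option autoImplicit false

namespace Pool.Agent.K1H19.Lech

open Finset

variable {k : Type} [Field k] {d : ℕ}

/-- the ideal generated by the first `i` linear forms -/
noncomputable def LL (c : Fin d → Fin (d + 1) → k) (i : Fin d) : Ideal (PS k d) :=
  Ideal.span {f : PS k d | ∃ j : Fin d, j.val < i.val ∧
    f = ∑ t : Fin (d + 1), c j t • (MvPowerSeries.X t : PS k d)}

lemma zc_eq (c : Fin d → Fin (d + 1) → k) (j : Fin d) :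
    zc c j.castSucc = ∑ t : Fin (d + 1), c j t • (MvPowerSeries.X t : PS k d) := by
  unfold zc zz
  rw [dif_pos (by simp)]
  refine Finset.sum_congr rfl fun t _ => ?_
  rw [Algebra.smul_def]
  rfl

lemma zc_mem (c : Fin d → Fin (d + 1) → k) (i : Fin d) (j : Fin (d + 1)) (hj : j.val < i.val) :
    zc c j ∈ LL c i := by
  apply Ideal.subset_span
  refine ⟨⟨j.val, by have := i.isLt; omega⟩, hj, ?_⟩
  rw [← zc_eq]
  rfl

/-- the bound for the lengths -/
lemma length_bound (c : Fin d → Fin (d + 1) → k) {M : ℕ} {I : Ideal (PS k d)}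
    {J : Set (Fin (d + 1) → ℕ)} (hadm : Adm J M)
    (hspan : Ideal.span (Set.range (zc c)) =
      Ideal.span (Set.range (MvPowerSeries.X : Fin (d + 1) → PS k d)))
    (hM : Ideal.span (Set.range (MvPowerSeries.X : Fin (d + 1) → PS k d)) ^ M ≤ I)
    (hJ : ∀ a ∈ J, mon (zc c) a ∈ I ⊔ Q (zc c) a)
    {κ : ℕ} (hκ : ∀ (N : ℕ) (a : Fin (d + 1) → ℕ), NS (N + κ) (cl J) a → NS N J a)
    (hSS : SS (cl J)) (i : Fin d) (N : ℕ) (hN : 1 ≤ N) :
    (d + 1 - i.val).factorial * (Module.length (PS k d) (PS k d ⧸ (I ^ N ⊔ LL c i))).toNat ≤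
      (N + κ) ^ (d + 1 - i.val) * F (d + 1 - i.val) (XX d M (cl J)) +
      (d + 1 - i.val).factorial * ((d + 1) * (N * M) ^ (d - i.val)) := by
  classical
  set K := I ^ N ⊔ LL c i with hK
  have hpow : Ideal.span (Set.range (zc c)) ^ (N * M) ≤ K := by
    rw [hspan, mul_comm, pow_mul]
    exact (Ideal.pow_right_mono hM N).trans le_sup_left
  have h1 : Submodule.span k (mon (zc c) '' {a | ∑ i, a i < N * M}) ⊔ K.restrictScalars k = ⊤ := by
    have h2 := span_mon_sup (k := k) (zc c) (fun x => by rw [hspan]; exact sub_const_mem x) (N * M)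
    rw [eq_top_iff, ← h2]
    exact sup_le_sup_left (fun x hx => hpow hx) _
  have h2 : ∀ a : Fin (d + 1) → ℕ, N * M ≤ ∑ i, a i → mon (zc c) a ∈ K := fun a ha =>
    hpow (Ideal.pow_le_pow_right ha (mon_mem_pow (zc c) a))
  have h3 := span_standard (zc c) K (N * M) h1 h2
  have hfin : Set.Finite {a : Fin (d + 1) → ℕ | ∑ i, a i < N * M ∧
      mon (zc c) a ∉ K ⊔ Q (zc c) a} := by
    apply Set.Finite.subset (Set.Finite.pi (fun _ : Fin (d + 1) => Set.finite_Iio (N * M)))
    intro a ha i _
    exact lt_of_le_of_lt (Finset.single_le_sum (fun j _ => Nat.zero_le (a j)) (Finset.mem_univ i))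
      ha.1
  have h4 := finrank_quot K (zc c) hfin.toFinset (by
    rw [Set.Finite.coe_toFinset]; exact h3)
  obtain ⟨h5, h6⟩ := h4
  rw [length_quot]
  refine (Nat.mul_le_mul_left _ h6).trans ?_
  refine count_bound hSS (fun a ha => subset_cl J (hadm.big a ha)) i.isLt (by omega)
    hfin.toFinset ?_ ?_ ?_
  · intro a ha j hj
    rw [Set.Finite.mem_toFinset] at ha
    by_contra hne
    apply ha.2
    apply Submodule.mem_sup_left
    apply Submodule.mem_sup_right
    unfold mon
    rw [← Finset.mul_prod_erase _ _ (Finset.mem_univ j)]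
    apply Ideal.mul_mem_right
    exact Ideal.pow_mem_of_mem _ (zc_mem c i j hj) _ (Nat.pos_of_ne_zero hne)
  · intro a ha j
    rw [Set.Finite.mem_toFinset] at ha
    exact lt_of_le_of_lt (Finset.single_le_sum (fun j _ => Nat.zero_le (a j)) (Finset.mem_univ j))
      ha.1
  · intro a ha hns
    rw [Set.Finite.mem_toFinset] at ha
    apply ha.2
    have h7 := NS_mon (zc c) hJ (hκ N a hns)
    exact (sup_le_sup_right (le_sup_left : I ^ N ≤ K) (Q (zc c) a)) h7

theorem main (k : Type) [Field k] (d : ℕ) (I : Ideal (PS k d))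
    (hI : I.radical = Ideal.span (Set.range (MvPowerSeries.X : Fin (d+1) → PS k d))) :
    ∃ P : MvPolynomial (Fin d × Fin (d+1)) k, P ≠ 0 ∧
      ∀ c : Fin d → Fin (d+1) → k, MvPolynomial.eval (fun p => c p.1 p.2) P ≠ 0 →
        ∀ e : Fin d → ℝ,
          (∀ i : Fin d, Filter.Tendsto
            (fun n : ℕ => ((Nat.factorial (d+1-i.val) : ℝ) *
              ((Module.length (PS k d) (PS k d ⧸ (I ^ n ⊔ LL c i))).toNat : ℝ))
              / (n : ℝ) ^ (d+1-i.val))
            Filter.atTop (nhds (e i))) →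
          ∑ i : Fin d, ((ascPochhammer ℕ (d+1)).coeff (d+1-i.val) : ℝ) * e i
            ≤ (Nat.factorial (d+1) : ℝ) *
              ((Module.length (PS k d) (PS k d ⧸ I)).toNat : ℝ) := by
  classical
  -- a power of the maximal ideal in `I`
  obtain ⟨M, hM⟩ := Ideal.exists_radical_pow_le_of_fg I (by
    rw [hI]; exact ⟨Finset.univ.image MvPowerSeries.X, by simp⟩)
  rw [hI] at hM
  set ξ : Fin (d + 1) → PS k d ⧸ I := fun t => Ideal.Quotient.mk I (MvPowerSeries.X t) with hξ
  have hξM : Ideal.span (Set.range ξ) ^ M = ⊥ := by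
    have h1 : Ideal.span (Set.range ξ) = Ideal.map (Ideal.Quotient.mk I)
        (Ideal.span (Set.range (MvPowerSeries.X : Fin (d+1) → PS k d))) := by
      rw [Ideal.map_span]
      congr 1
      ext y
      simp [hξ]
    rw [h1, ← Ideal.map_pow, eq_bot_iff]
    refine (Ideal.map_mono hM).trans (le_of_eq (Ideal.map_quotient_self I))
  set J := Jg k ξ with hJ
  have hadm : Adm J M := Jg_adm ξ M hξM
  have hSS : SS (cl J) := ⟨fun a b ha hab => cl_up J ha hab, fun a j i hji h =>
    cl_mv hadm.mv hji h⟩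
  obtain ⟨κ, hκ⟩ := exists_loss hadm.big
  -- finiteness of the quotient
  have hfinJ : Set.Finite {a : Fin (d + 1) → ℕ | ∑ i, a i < M} := by
    apply Set.Finite.subset (Set.Finite.pi (fun _ : Fin (d + 1) => Set.finite_Iio M))
    intro a ha i _
    exact lt_of_le_of_lt (Finset.single_le_sum (fun j _ => Nat.zero_le (a j)) (Finset.mem_univ i)) ha
  have hfinite : Module.Finite k (PS k d ⧸ I) := by
    have h2 := span_mon_sup (k := k) (MvPowerSeries.X : Fin (d+1) → PS k d) sub_const_mem M
    refine (finrank_quot I MvPowerSeries.X hfinJ.toFinset ?_).1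
    rw [Set.Finite.coe_toFinset, eq_top_iff, ← h2]
    exact sup_le_sup_left (fun x hx => hM hx) _
  -- the complement of `J`
  have hcompl : Set.Finite {a | a ∉ J} := hfinJ.subset fun a ha => by
    by_contra h
    exact ha (hadm.big a (not_lt.mp h))
  have hcard : hcompl.toFinset.card ≤ (Module.length (PS k d) (PS k d ⧸ I)).toNat := by
    rw [length_quot]
    apply card_le_finrank ξ
    intro a ha
    rw [Set.Finite.mem_toFinset] at ha
    exact ha
  have hmain := main_ineq hSS M hcompl.toFinset (fun a ha => by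
    rw [Set.Finite.mem_toFinset]
    exact fun h => ha (subset_cl J h))
  -- the polynomial
  have hD : ∀ a : Fin (d + 1) → ℕ, a ∈ J → ∃ D : MvPolynomial (Fin d × Fin (d + 1)) k, D ≠ 0 ∧
    MvPolynomial.map (algebraMap k (PS k d ⧸ I)) D * mon (gz ξ) a ∈ Q (gz ξ) a := fun a ha => ha
  choose! D hD0 hD1 using hD
  set T := hfinJ.toFinset.filter (fun a => a ∈ J) with hT
  refine ⟨minor k d * ∏ a ∈ T, D a, mul_ne_zero minor_ne_zero (Finset.prod_ne_zero_iff.mpr
    fun a ha => hD0 a (Finset.mem_filter.mp ha).2), ?_⟩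
  intro c hc e he
  rw [map_mul, map_prod] at hc
  have hc1 := left_ne_zero_of_mul hc
  have hc2 := Finset.prod_ne_zero_iff.mp (right_ne_zero_of_mul hc)
  have hspan : Ideal.span (Set.range (zc c)) =
      Ideal.span (Set.range (MvPowerSeries.X : Fin (d + 1) → PS k d)) :=
    le_antisymm (span_zc_le c) (le_span_zc c hc1)
  have hlead : ∀ a ∈ J, mon (zc c) a ∈ I ⊔ Q (zc c) a := by
    intro a ha
    by_cases haM : ∑ i, a i < M
    · have h1 := special ξ c (hc2 a (by
        rw [hT, Finset.mem_filter, Set.Finite.mem_toFinset]; exact ⟨haM, ha⟩)) (hD1 a ha)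
      have h2 : zz (fun j t => algebraMap k (PS k d ⧸ I) (c j t)) ξ =
          fun j => Ideal.Quotient.mk I (zc c j) := by
        unfold zc
        rw [map_zz]
        rfl
      rw [h2, ← map_mon, ← map_Q, Ideal.mem_map_iff_of_surjective _ Ideal.Quotient.mk_surjective]
        at h1
      obtain ⟨q, hq, hq2⟩ := h1
      have h3 : mon (zc c) a - q ∈ I := by
        rw [← Ideal.Quotient.eq]
        exact hq2.symm
      have : mon (zc c) a = (mon (zc c) a - q) + q := by ring
      rw [this]
      exact Submodule.add_mem_sup h3 hq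
    · apply Submodule.mem_sup_left
      apply hM
      rw [← hspan]
      exact Ideal.pow_le_pow_right (not_lt.mp haM) (mon_mem_pow (zc c) a)
  -- the bound for the limits
  have hlim : ∀ i : Fin d, e i ≤ (F (d + 1 - i.val) (XX d M (cl J)) : ℝ) := by
    intro i
    refine limit_le (d + 1 - i.val) M κ (d + 1) _ ((d + 1 - i.val).factorial : ℝ) (by omega) _ _ ?_
      (he i)
    intro N hN
    have h1 := length_bound c hadm hspan hM hlead hκ hSS i N hN
    have h2 : d - i.val = d + 1 - i.val - 1 := by omega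
    rw [h2] at h1
    exact_mod_cast h1
  have hsum : ∑ i : Fin d, (st (d + 1) (d + 1 - i.val) : ℝ) *
      (F (d + 1 - i.val) (XX d M (cl J)) : ℝ) ≤
      ∑ c ∈ range (d + 2), (st (d + 1) c : ℝ) * (F c (XX d M (cl J)) : ℝ) := by
    have hinj : Function.Injective (fun i : Fin d => d + 1 - i.val) := by
      intro i j h
      apply Fin.ext
      have := i.isLt
      have := j.isLt
      simp only at h
      omega
    rw [← Finset.sum_image (s := (univ : Finset (Fin d))) (g := fun i : Fin d => d + 1 - i.val)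
      (f := fun c => (st (d + 1) c : ℝ) * (F c (XX d M (cl J)) : ℝ)) (fun a _ b _ h => hinj h)]
    apply Finset.sum_le_sum_of_subset_of_nonneg
    · intro x hx
      obtain ⟨i, _, rfl⟩ := Finset.mem_image.mp hx
      rw [Finset.mem_range]
      omega
    · intro c _ _
      positivity
  calc ∑ i : Fin d, ((ascPochhammer ℕ (d+1)).coeff (d+1-i.val) : ℝ) * e i
      ≤ ∑ i : Fin d, (st (d + 1) (d + 1 - i.val) : ℝ) *
          (F (d + 1 - i.val) (XX d M (cl J)) : ℝ) :=
        Finset.sum_le_sum fun i _ => mul_le_mul_of_nonneg_left (hlim i) (Nat.cast_nonneg _)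
    _ ≤ ∑ c ∈ range (d + 2), (st (d + 1) c : ℝ) * (F c (XX d M (cl J)) : ℝ) := hsum
    _ ≤ ((d + 1).factorial : ℝ) * (hcompl.toFinset.card : ℝ) := by exact_mod_cast hmain
    _ ≤ _ := by
        apply mul_le_mul_of_nonneg_left _ (Nat.cast_nonneg _)
        exact_mod_cast hcard

end Pool.Agent.K1H19.Lech
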