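import Mathlib

/-!
# Monomials in elements `z_0, …, z_{n-1}` of a ring and their flag ideals

`mon z a = ∏ z i ^ a i` and `Q z a` is generated by `z l * ∏ m ≤ l, z m ^ a m`: it contains all
monomials which are lexicographically larger than `a`.
-/

set_option autoImplicit false

namespace Pool.Agent.K1H19.Lech

open Finset

variable {A : Type*} [CommRing A] {n : ℕ}

/-- the monomial with exponent `a` -/
def mon (z : Fin n → A) (a : Fin n → ℕ) : A := ∏ i, z i ^ a i

/-- the generators of the flag ideal -/
def gen (z : Fin n → A) (a : Fin n → ℕ) (l : Fin n) : A := z l * ∏ m ∈ Finset.Iic l, z m ^ a m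

/-- the ideal generated by the monomials which are lexicographically larger than `a` -/
def Q (z : Fin n → A) (a : Fin n → ℕ) : Ideal A := Ideal.span (Set.range (gen z a))

lemma gen_mem (z : Fin n → A) (a : Fin n → ℕ) (l : Fin n) : gen z a l ∈ Q z a :=
  Ideal.subset_span ⟨l, rfl⟩

lemma mon_add (z : Fin n → A) (a b : Fin n → ℕ) : mon z (a + b) = mon z a * mon z b := by
  simp [mon, pow_add, Finset.prod_mul_distrib]

lemma mon_zero (z : Fin n → A) : mon z 0 = 1 := by
  simp [mon]

lemma mon_single (z : Fin n → A) (i : Fin n) : mon z (Pi.single i 1) = z i := by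
  unfold mon
  rw [Finset.prod_eq_single i]
  · simp
  · intro j _ hj
    simp [Pi.single_eq_of_ne hj]
  · simp

lemma gen_dvd_of_lt (z : Fin n → A) {a b : Fin n → ℕ} (l : Fin n) (h : ∀ m < l, a m ≤ b m)
    (hl : a l < b l) : gen z a l ∣ mon z b := by
  have e1 : gen z a l = ∏ m, z m ^ (if m ≤ l then (if m = l then a m + 1 else a m) else 0) := by
    unfold gen
    have e2 : ∏ m, z m ^ (if m ≤ l then (if m = l then a m + 1 else a m) else 0) =
        ∏ m ∈ Finset.Iic l, z m ^ (if m = l then a m + 1 else a m) := by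
      rw [← Finset.prod_subset (Finset.subset_univ (Finset.Iic l))]
      · refine Finset.prod_congr rfl fun m hm => ?_
        rw [if_pos (Finset.mem_Iic.mp hm)]
      · intro m _ hm
        rw [if_neg (by simpa using hm), pow_zero]
    rw [e2, ← Finset.mul_prod_erase (Finset.Iic l) _ (Finset.mem_Iic.mpr le_rfl),
      ← Finset.mul_prod_erase (Finset.Iic l) (fun m => z m ^ (if m = l then a m + 1 else a m))
        (Finset.mem_Iic.mpr le_rfl), if_pos rfl, pow_succ]
    have e3 : ∏ m ∈ (Finset.Iic l).erase l, z m ^ (if m = l then a m + 1 else a m) =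
        ∏ m ∈ (Finset.Iic l).erase l, z m ^ a m := by
      refine Finset.prod_congr rfl fun m hm => ?_
      rw [if_neg (Finset.ne_of_mem_erase hm)]
    rw [e3]
    ring
  rw [e1]
  unfold mon
  apply Finset.prod_dvd_prod_of_dvd
  intro m _
  apply pow_dvd_pow
  split_ifs with h1 h2
  · subst h2; omega
  · exact h m (lt_of_le_of_ne h1 h2)
  · exact Nat.zero_le _

lemma mon_mem_Q_of_lt (z : Fin n → A) {a b : Fin n → ℕ} (l : Fin n) (h : ∀ m < l, a m ≤ b m)
    (hl : a l < b l) : mon z b ∈ Q z a :=
  Ideal.mem_of_dvd _ (gen_dvd_of_lt z l h hl) (gen_mem z a l)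

/-- the exponent of a multiple of a generator -/
def gexp (a b : Fin n → ℕ) (l : Fin n) : Fin n → ℕ :=
  b + Pi.single l 1 + fun m => if m ≤ l then a m else 0

lemma mon_mul_gen (z : Fin n → A) (a b : Fin n → ℕ) (l : Fin n) :
    mon z b * gen z a l = mon z (gexp a b l) := by
  unfold gexp gen
  rw [mon_add, mon_add, mon_single, mul_assoc]
  congr 2
  unfold mon
  rw [← Finset.prod_subset (Finset.subset_univ (Finset.Iic l))]
  · refine Finset.prod_congr rfl fun m hm => ?_
    beta_reduce
    rw [if_pos (Finset.mem_Iic.mp hm)]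
  · intro m _ hm
    beta_reduce
    rw [if_neg (by simpa using hm), pow_zero]

lemma gexp_lt (a b : Fin n → ℕ) (l : Fin n) : toLex a < toLex (gexp a b l) := by
  classical
  -- the first index where they differ
  by_cases h : ∃ m, m ≤ l ∧ a m < gexp a b l m
  · obtain ⟨m, ⟨hm1, hm2⟩, hmin⟩ := WellFounded.has_min (wellFounded_lt (α := Fin n))
      {m | m ≤ l ∧ a m < gexp a b l m} h
    refine ⟨m, fun j hj => ?_, hm2⟩
    have h1 : ¬ (j ≤ l ∧ a j < gexp a b l j) := fun hj' => hmin j hj' hj
    have hjl : j ≤ l := (le_of_lt hj).trans hm1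
    have h2 : a j ≤ gexp a b l j := by
      simp only [gexp, Pi.add_apply, if_pos hjl]
      omega
    have h3 : ¬ a j < gexp a b l j := fun h' => h1 ⟨hjl, h'⟩
    show a j = gexp a b l j
    omega
  · exfalso
    apply h
    refine ⟨l, le_rfl, ?_⟩
    simp only [gexp, Pi.add_apply, Pi.single_eq_same, if_pos le_rfl]
    omega

lemma mon_mem_Q (z : Fin n → A) {a b : Fin n → ℕ} (h : toLex a < toLex b) : mon z b ∈ Q z a := by
  obtain ⟨l, h1, h2⟩ := h
  exact mon_mem_Q_of_lt z l (fun m hm => (h1 m hm).le) h2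

lemma mon_mul_Q (z : Fin n → A) (a b : Fin n → ℕ) {x : A} (hx : x ∈ Q z b) :
    mon z a * x ∈ Q z (a + b) := by
  unfold Q at hx
  induction hx using Submodule.span_induction with
  | mem x hx =>
    obtain ⟨l, rfl⟩ := hx
    rw [mon_mul_gen]
    apply mon_mem_Q_of_lt z l
    · intro m hm
      simp only [gexp, Pi.add_apply, if_pos (le_of_lt hm)]
      omega
    · simp only [gexp, Pi.add_apply, Pi.single_eq_same, if_pos le_rfl]
      omega
  | zero => rw [mul_zero]; exact Ideal.zero_mem _
  | add x y _ _ hx hy => rw [mul_add]; exact Ideal.add_mem _ hx hy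
  | smul r x _ hx =>
    rw [smul_eq_mul, mul_left_comm]
    exact Ideal.mul_mem_left _ _ hx

lemma gen_eq_mon (z : Fin n → A) (a : Fin n → ℕ) (l : Fin n) : gen z a l = mon z (gexp a 0 l) := by
  rw [← mon_mul_gen, mon_zero, one_mul]

lemma gen_mul_gen (z : Fin n → A) (a b : Fin n → ℕ) (l m : Fin n) :
    gen z a l * gen z b m ∈ Q z (a + b) := by
  rw [gen_eq_mon z a, gen_eq_mon z b, ← mon_add]
  rcases le_total l m with h | h
  · apply mon_mem_Q_of_lt z l
    · intro p hp
      simp only [gexp, Pi.add_apply, if_pos (le_of_lt hp), if_pos ((le_of_lt hp).trans h)]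
      omega
    · simp only [gexp, Pi.add_apply, Pi.single_eq_same, if_pos le_rfl, if_pos h]
      omega
  · apply mon_mem_Q_of_lt z m
    · intro p hp
      simp only [gexp, Pi.add_apply, if_pos (le_of_lt hp), if_pos ((le_of_lt hp).trans h)]
      omega
    · simp only [gexp, Pi.add_apply, Pi.single_eq_same, if_pos le_rfl, if_pos h]
      omega

lemma Q_mul_Q (z : Fin n → A) (a b : Fin n → ℕ) : Q z a * Q z b ≤ Q z (a + b) := by
  unfold Q
  rw [Ideal.span_mul_span', Ideal.span_le]
  rintro x ⟨y, ⟨l, rfl⟩, w, ⟨m, rfl⟩, rfl⟩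
  exact gen_mul_gen z a b l m

/-- leading monomials multiply -/
lemma mon_add_mem (z : Fin n → A) {a b : Fin n → ℕ} {I I' : Ideal A}
    (ha : mon z a ∈ I ⊔ Q z a) (hb : mon z b ∈ I' ⊔ Q z b) :
    mon z (a + b) ∈ I * I' ⊔ Q z (a + b) := by
  obtain ⟨f, hf, q, hq, h1⟩ := Submodule.mem_sup.mp ha
  obtain ⟨f', hf', q', hq', h2⟩ := Submodule.mem_sup.mp hb
  have e : mon z (a + b) = f * f' + (mon z a * q' - q * q' + mon z b * q) := by
    rw [mon_add, ← h1, ← h2]; ring
  rw [e]
  refine Submodule.add_mem_sup (Ideal.mul_mem_mul hf hf') ?_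
  refine Ideal.add_mem _ (Ideal.sub_mem _ (mon_mul_Q z a b hq') ?_) ?_
  · exact Q_mul_Q z a b (Ideal.mul_mem_mul hq hq')
  · have := mon_mul_Q z b a hq
    rwa [add_comm b a] at this

lemma mon_up (z : Fin n → A) {a : Fin n → ℕ} (b : Fin n → ℕ) {I : Ideal A}
    (ha : mon z a ∈ I ⊔ Q z a) : mon z (a + b) ∈ I ⊔ Q z (a + b) := by
  obtain ⟨f, hf, q, hq, h1⟩ := Submodule.mem_sup.mp ha
  rw [mon_add, ← h1, add_mul]
  refine Submodule.add_mem_sup (Ideal.mul_mem_right _ _ hf) ?_
  have := mon_mul_Q z b a hq
  rwa [add_comm b a, mul_comm] at this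

section map

variable {A' : Type*} [CommRing A'] (f : A →+* A')

lemma map_mon (z : Fin n → A) (a : Fin n → ℕ) : f (mon z a) = mon (fun i => f (z i)) a := by
  simp [mon]

lemma map_gen (z : Fin n → A) (a : Fin n → ℕ) (l : Fin n) :
    f (gen z a l) = gen (fun i => f (z i)) a l := by
  simp [gen]

lemma map_Q (z : Fin n → A) (a : Fin n → ℕ) :
    Ideal.map f (Q z a) = Q (fun i => f (z i)) a := by
  unfold Q
  rw [Ideal.map_span]
  congr 1
  ext x
  constructor
  · rintro ⟨y, ⟨l, rfl⟩, rfl⟩
    exact ⟨l, (map_gen f z a l).symm⟩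
  · rintro ⟨l, rfl⟩
    exact ⟨_, ⟨l, rfl⟩, map_gen f z a l⟩

end map

section span

variable {k : Type*} [Field k] [Algebra k A]

/-- If `A = k + (z)` then `A` is spanned by the monomials of degree less than `M` modulo
`(z) ^ M`. -/
lemma span_mon_sup (z : Fin n → A)
    (h : ∀ x : A, ∃ c : k, x - algebraMap k A c ∈ Ideal.span (Set.range z)) (M : ℕ) :
    Submodule.span k (mon z '' {a | ∑ i, a i < M}) ⊔
      (Ideal.span (Set.range z) ^ M).restrictScalars k = ⊤ := by
  induction M with
  | zero =>
    rw [pow_zero, Ideal.one_eq_top]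
    simp
  | succ M ih =>
    rw [eq_top_iff]
    intro x _
    obtain ⟨c, hc⟩ := h x
    have h1 : algebraMap k A c ∈ Submodule.span k (mon z '' {a | ∑ i, a i < M + 1}) := by
      rw [Algebra.algebraMap_eq_smul_one]
      apply Submodule.smul_mem
      apply Submodule.subset_span
      exact ⟨0, by simp, mon_zero z⟩
    have h2 : ∀ y ∈ Ideal.span (Set.range z), y ∈
        Submodule.span k (mon z '' {a | ∑ i, a i < M + 1}) ⊔
        (Ideal.span (Set.range z) ^ (M + 1)).restrictScalars k := by
      intro y hy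
      rw [Ideal.mem_span_range_iff_exists_fun] at hy
      obtain ⟨w, rfl⟩ := hy
      apply Submodule.sum_mem
      intro i _
      have hw : w i ∈ Submodule.span k (mon z '' {a | ∑ i, a i < M}) ⊔
          (Ideal.span (Set.range z) ^ M).restrictScalars k := by
        rw [ih]; trivial
      obtain ⟨u, hu, v, hv, huv⟩ := Submodule.mem_sup.mp hw
      rw [← huv, add_mul]
      refine Submodule.add_mem_sup ?_ ?_
      · clear hw huv
        induction hu using Submodule.span_induction with
        | mem u hu =>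
          obtain ⟨a, ha, rfl⟩ := hu
          apply Submodule.subset_span
          refine ⟨a + Pi.single i 1, ?_, ?_⟩
          · show ∑ j, (a + Pi.single i 1 : Fin n → ℕ) j < M + 1
            simp only [Pi.add_apply, Finset.sum_add_distrib, Finset.sum_pi_single', Finset.mem_univ,
              if_true]
            have : ∑ i, a i < M := ha
            omega
          · rw [mon_add, mon_single]
        | zero => rw [zero_mul]; exact Submodule.zero_mem _
        | add x y _ _ hx hy => rw [add_mul]; exact Submodule.add_mem _ hx hy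
        | smul r x _ hx => rw [smul_mul_assoc]; exact Submodule.smul_mem _ _ hx
      · show v * z i ∈ Ideal.span (Set.range z) ^ (M + 1)
        rw [pow_succ]
        exact Ideal.mul_mem_mul hv (Ideal.subset_span ⟨i, rfl⟩)
    have h3 := h2 _ hc
    have e : x = algebraMap k A c + (x - algebraMap k A c) := by ring
    rw [e]
    exact Submodule.add_mem _ (Submodule.mem_sup_left h1) h3

lemma mon_mem_pow (z : Fin n → A) (a : Fin n → ℕ) :
    mon z a ∈ Ideal.span (Set.range z) ^ (∑ i, a i) := by
  unfold mon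
  rw [← Finset.prod_pow_eq_pow_sum]
  exact Ideal.prod_mem_prod fun i _ => Ideal.pow_mem_pow
    (Ideal.subset_span (Set.mem_range_self i)) _

/-- Only the monomials which are not leading monomials of elements of `K` are needed. -/
lemma span_standard (z : Fin n → A) (K : Ideal A) (M : ℕ)
    (h1 : Submodule.span k (mon z '' {a | ∑ i, a i < M}) ⊔ K.restrictScalars k = ⊤)
    (h2 : ∀ a : Fin n → ℕ, M ≤ ∑ i, a i → mon z a ∈ K) :
    Submodule.span k (mon z '' {a | ∑ i, a i < M ∧ mon z a ∉ K ⊔ Q z a}) ⊔
      K.restrictScalars k = ⊤ := by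
  classical
  set V := Submodule.span k (mon z '' {a | ∑ i, a i < M ∧ mon z a ∉ K ⊔ Q z a}) ⊔
      K.restrictScalars k with hV
  have hfin : Finite {a : Fin n → ℕ // ∑ i, a i < M} := by
    have : Set.Finite {a : Fin n → ℕ | ∑ i, a i < M} := by
      apply Set.Finite.subset (Set.Finite.pi (fun _ : Fin n => Set.finite_Iio M))
      intro a ha i _
      exact lt_of_le_of_lt (Finset.single_le_sum (fun j _ => Nat.zero_le (a j)) (Finset.mem_univ i)) ha
    exact this
  let r : {a : Fin n → ℕ // ∑ i, a i < M} → {a : Fin n → ℕ // ∑ i, a i < M} → Prop :=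
    fun x y => toLex y.1 < toLex x.1
  have hwf : WellFounded r := by
    have : Std.Irrefl r := ⟨fun x hx => lt_irrefl _ hx⟩
    have : IsTrans _ r := ⟨fun x y w hxy hyw => lt_trans (a := toLex w.1) hyw hxy⟩
    exact Finite.wellFounded_of_trans_of_irrefl r
  have key : ∀ x : {a : Fin n → ℕ // ∑ i, a i < M}, mon z x.1 ∈ V := by
    intro x
    induction x using hwf.induction with
    | _ x ih =>
      by_cases hx : mon z x.1 ∈ K ⊔ Q z x.1
      · obtain ⟨f, hf, q, hq, hfq⟩ := Submodule.mem_sup.mp hx
        rw [← hfq]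
        refine Submodule.add_mem _ (Submodule.mem_sup_right hf) ?_
        unfold Q at hq
        rw [Ideal.mem_span_range_iff_exists_fun] at hq
        obtain ⟨w, rfl⟩ := hq
        apply Submodule.sum_mem
        intro l _
        have hw : w l ∈ Submodule.span k (mon z '' {a | ∑ i, a i < M}) ⊔ K.restrictScalars k := by
          rw [h1]; trivial
        obtain ⟨u, hu, v, hv, huv⟩ := Submodule.mem_sup.mp hw
        rw [← huv, add_mul]
        refine Submodule.add_mem _ ?_ ?_
        · clear hw huv
          induction hu using Submodule.span_induction with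
          | mem u hu =>
            obtain ⟨b, _, rfl⟩ := hu
            rw [mon_mul_gen]
            by_cases hM : ∑ i, gexp x.1 b l i < M
            · exact ih ⟨_, hM⟩ (gexp_lt x.1 b l)
            · exact Submodule.mem_sup_right (h2 _ (not_lt.mp hM))
          | zero => rw [zero_mul]; exact Submodule.zero_mem _
          | add x y _ _ hx hy => rw [add_mul]; exact Submodule.add_mem _ hx hy
          | smul r x _ hx => rw [smul_mul_assoc]; exact Submodule.smul_mem _ _ hx
        · apply Submodule.mem_sup_right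
          exact Ideal.mul_mem_right _ _ hv
      · exact Submodule.mem_sup_left (Submodule.subset_span ⟨x.1, ⟨x.2, hx⟩, rfl⟩)
  rw [eq_top_iff, ← h1, sup_le_iff]
  refine ⟨?_, le_sup_right⟩
  rw [Submodule.span_le]
  rintro _ ⟨a, ha, rfl⟩
  exact key ⟨a, ha⟩

end span

end Pool.Agent.K1H19.Lech
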