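import Pool.Agent.K1H19.Lech.Comb
import Pool.Agent.K1H19.Lech.Closure

/-!
# From multisets to exponents

For a multiset `W` of natural numbers `tab d W` is the exponent
`∑ t < sup W, e_{d - #{w ∈ W : w ≤ t}}`.
-/

set_option autoImplicit false

namespace Pool.Agent.K1H19.Lech

open Finset

/-- the index `d - m` -/
def idx (d m : ℕ) : Fin (d + 1) := ⟨d - m, by omega⟩

/-- number of elements which are at most `t` -/
def le (t : ℕ) (W : Multiset ℕ) : ℕ := W.countP (· ≤ t)

/-- the exponent of a multiset -/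
def tab (d : ℕ) (W : Multiset ℕ) : Fin (d + 1) → ℕ :=
  ∑ t ∈ range W.sup, Pi.single (idx d (le t W)) 1

/-- strongly stable sets of exponents -/
structure SS {d : ℕ} (J : Set (Fin (d + 1) → ℕ)) : Prop where
  up : ∀ a b, a ∈ J → a ≤ b → b ∈ J
  mv : ∀ (a : Fin (d + 1) → ℕ) (j i : Fin (d + 1)), j < i → a + Pi.single j 1 ∈ J →
    a + Pi.single i 1 ∈ J

variable {d : ℕ} {J : Set (Fin (d + 1) → ℕ)}

lemma idx_anti {m m' : ℕ} (h : m ≤ m') : idx d m' ≤ idx d m := by
  show d - m' ≤ d - m
  omega

lemma idx_inj {m m' : ℕ} (h : m ≤ d) (h' : m' ≤ d) : idx d m = idx d m' ↔ m = m' := by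
  constructor
  · intro e
    have := congrArg Fin.val e
    simp only [idx] at this
    omega
  · rintro rfl; rfl

lemma SS.sum_move (hJ : SS J) (T : Finset ℕ) (f g : ℕ → Fin (d + 1)) (h : ∀ t ∈ T, f t ≤ g t)
    (r : Fin (d + 1) → ℕ) (hr : r + ∑ t ∈ T, Pi.single (f t) 1 ∈ J) :
    r + ∑ t ∈ T, Pi.single (g t) 1 ∈ J := by
  classical
  induction T using Finset.induction_on generalizing r with
  | empty => simpa using hr
  | insert t T ht ih =>
    rw [Finset.sum_insert ht, ← add_assoc] at hr
    have h1 := ih (fun u hu => h u (Finset.mem_insert_of_mem hu)) _ hr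
    rw [Finset.sum_insert ht]
    have e1 : r + Pi.single (f t) 1 + ∑ t ∈ T, Pi.single (g t) 1 =
        (r + ∑ t ∈ T, Pi.single (g t) 1) + Pi.single (f t) 1 := by abel
    have e2 : r + (Pi.single (g t) 1 + ∑ t ∈ T, Pi.single (g t) 1) =
        (r + ∑ t ∈ T, Pi.single (g t) 1) + Pi.single (g t) 1 := by abel
    rw [e1] at h1
    rw [e2]
    rcases (h t (Finset.mem_insert_self t T)).lt_or_eq with h2 | h2
    · exact hJ.mv _ _ _ h2 h1
    · rw [← h2]; exact h1

lemma le_cons (t v : ℕ) (W : Multiset ℕ) : le t W ≤ le t (v ::ₘ W) := by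
  unfold le
  exact Multiset.countP_le_of_le _ (Multiset.le_cons_self W v)

lemma SS.tab_dup (hJ : SS J) {W : Multiset ℕ} {v : ℕ} (hv : v ∈ W)
    (h : tab d (v ::ₘ W) ∈ J) : tab d W ∈ J := by
  unfold tab at h ⊢
  have hs : (v ::ₘ W).sup = W.sup := by
    rw [Multiset.sup_cons]
    exact sup_eq_right.mpr (Multiset.le_sup hv)
  rw [hs] at h
  have := hJ.sum_move (range W.sup) _ (fun t => idx d (le t W)) (fun t _ => idx_anti (le_cons t v W))
    0 (by rwa [zero_add])
  rwa [zero_add] at this

lemma SS.tab_mono (hJ : SS J) {c : ℕ} {w w' : Fin c → ℕ} (hw : w ≤ w')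
    (h : tab d (univ.val.map w) ∈ J) : tab d (univ.val.map w') ∈ J := by
  unfold tab at h ⊢
  have hs : (univ.val.map w).sup ≤ (univ.val.map w').sup := by
    rw [Multiset.sup_le]
    intro b hb
    obtain ⟨m, hm, rfl⟩ := Multiset.mem_map.mp hb
    exact (hw m).trans (Multiset.le_sup (Multiset.mem_map_of_mem w' hm))
  have hle : ∀ t, le t (univ.val.map w') ≤ le t (univ.val.map w) := by
    intro t
    unfold le
    rw [Multiset.countP_map, Multiset.countP_map]
    apply Multiset.card_le_card
    apply Multiset.monotone_filter_right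
    intro m hm
    exact (hw m).trans hm
  have h1 := hJ.sum_move (range (univ.val.map w).sup) _
    (fun t => idx d (le t (univ.val.map w'))) (fun t _ => idx_anti (hle t))
    0 (by rwa [zero_add])
  rw [zero_add] at h1
  refine hJ.up _ _ h1 ?_
  exact Finset.sum_le_sum_of_subset (Finset.range_subset_range.mpr hs)

lemma sum_range_mul {β : Type*} [AddCommMonoid β] (N L : ℕ) (f : ℕ → β) :
    ∑ u ∈ range (N * L), f u = ∑ t ∈ range L, ∑ s ∈ range N, f (N * t + s) := by
  induction L with
  | zero => simp
  | succ L ih =>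
    rw [Nat.mul_succ, Finset.sum_range_add, ih, Finset.sum_range_succ]

lemma lt_sup_iff (t : ℕ) (W : Multiset ℕ) : t < W.sup ↔ ∃ w ∈ W, t < w := by
  constructor
  · intro h
    by_contra hcon
    push Not at hcon
    exact absurd (Multiset.sup_le.mpr hcon) (not_le.mpr h)
  · rintro ⟨w, hw, h⟩
    exact lt_of_lt_of_le h (Multiset.le_sup hw)

lemma tab_hermite (d : ℕ) (N : ℕ) (hN : 0 < N) (W : Multiset ℕ) :
    ∑ r ∈ range N, tab d (W.map fun w => (w + r) / N) = tab d W := by
  have key : ∀ w r t : ℕ, r < N → ((w + r) / N ≤ t ↔ w ≤ N * t + (N - 1 - r)) := by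
    intro w r t hr
    rw [← Nat.lt_succ_iff, Nat.div_lt_iff_lt_mul hN, Nat.succ_mul, Nat.mul_comm t N]
    omega
  have h1 : ∀ r ∈ range N, tab d (W.map fun w => (w + r) / N) =
      ∑ t ∈ range W.sup, (if N * t + (N - 1 - r) < W.sup then
        Pi.single (idx d (le (N * t + (N - 1 - r)) W)) 1 else 0) := by
    intro r hr
    rw [Finset.mem_range] at hr
    unfold tab
    rw [← Finset.sum_filter]
    have e1 : range (W.map fun w => (w + r) / N).sup =
        (range W.sup).filter (fun t => N * t + (N - 1 - r) < W.sup) := by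
      ext t
      rw [Finset.mem_range, Finset.mem_filter, Finset.mem_range, lt_sup_iff]
      constructor
      · rintro ⟨w, hw, h⟩
        obtain ⟨v, hv, rfl⟩ := Multiset.mem_map.mp hw
        have h2 : N * t + (N - 1 - r) < W.sup := by
          rw [lt_sup_iff]
          refine ⟨v, hv, ?_⟩
          by_contra hcon
          exact absurd ((key v r t hr).mpr (not_lt.mp hcon)) (not_le.mpr h)
        have h3 : t ≤ N * t := Nat.le_mul_of_pos_left t hN
        exact ⟨by omega, h2⟩
      · rintro ⟨_, h⟩
        rw [lt_sup_iff] at h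
        obtain ⟨v, hv, h⟩ := h
        refine ⟨_, Multiset.mem_map_of_mem _ hv, ?_⟩
        by_contra hcon
        exact absurd ((key v r t hr).mp (not_lt.mp hcon)) (not_le.mpr h)
    rw [e1]
    refine Finset.sum_congr rfl fun t _ => ?_
    congr 2
    unfold le
    rw [Multiset.countP_map, Multiset.countP_eq_card_filter]
    congr 1
    apply Multiset.filter_congr
    intro w _
    exact key w r t hr
  rw [Finset.sum_congr rfl h1, Finset.sum_comm]
  have h2 : ∀ t, ∑ r ∈ range N, (if N * t + (N - 1 - r) < W.sup then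
        Pi.single (idx d (le (N * t + (N - 1 - r)) W)) 1 else (0 : Fin (d + 1) → ℕ)) =
      ∑ s ∈ range N, (if N * t + s < W.sup then
        Pi.single (idx d (le (N * t + s) W)) 1 else 0) := by
    intro t
    exact Finset.sum_range_reflect (fun s => if N * t + s < W.sup then
        Pi.single (idx d (le (N * t + s) W)) 1 else (0 : Fin (d + 1) → ℕ)) N
  simp only [h2]
  rw [← sum_range_mul N W.sup (fun u => if u < W.sup then
        Pi.single (idx d (le u W)) 1 else (0 : Fin (d + 1) → ℕ))]
  unfold tab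
  rw [← Finset.sum_filter]
  refine Finset.sum_congr ?_ fun _ _ => rfl
  ext u
  rw [Finset.mem_filter, Finset.mem_range, Finset.mem_range]
  have : W.sup ≤ N * W.sup := Nat.le_mul_of_pos_left _ hN
  omega

lemma SS.NS_tab (hJ : SS J) {c N : ℕ} (hN : 0 < N) {w : Fin c → ℕ}
    (h : tab d (univ.val.map fun m => w m / N) ∈ J) : NS N J (tab d (univ.val.map w)) := by
  refine ⟨(Multiset.range N).map fun r => tab d (univ.val.map fun m => (w m + r) / N), ?_, ?_, ?_⟩
  · simp
  · intro x hx
    obtain ⟨r, _, rfl⟩ := Multiset.mem_map.mp hx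
    refine hJ.tab_mono (fun m => ?_) h
    exact Nat.div_le_div_right (Nat.le_add_right _ _)
  · have := tab_hermite d N hN (univ.val.map w)
    simp only [Multiset.map_map, Function.comp_def] at this
    exact le_of_eq this

lemma sum_tab (d : ℕ) (W : Multiset ℕ) : ∑ i, tab d W i = W.sup := by
  unfold tab
  simp only [Finset.sum_apply]
  rw [Finset.sum_comm]
  simp

lemma le_of_sup_le (t : ℕ) (W : Multiset ℕ) (h : W.sup ≤ t) : le t W = W.card := by
  unfold le
  rw [Multiset.countP_eq_card]
  intro a ha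
  exact (Multiset.le_sup ha).trans h

lemma le_lt_card (t : ℕ) (W : Multiset ℕ) (h : t < W.sup) : le t W < W.card := by
  obtain ⟨w, hw, h⟩ := (lt_sup_iff t W).mp h
  unfold le
  rw [Multiset.countP_eq_card_filter]
  apply Multiset.card_lt_card
  apply lt_of_le_of_ne (Multiset.filter_le _ _)
  intro e
  rw [← e, Multiset.mem_filter] at hw
  omega

lemma le_mono (W : Multiset ℕ) {t t' : ℕ} (h : t ≤ t') : le t W ≤ le t' W := by
  unfold le
  rw [Multiset.countP_eq_card_filter, Multiset.countP_eq_card_filter]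
  apply Multiset.card_le_card
  apply Multiset.monotone_filter_right
  intro w hw
  exact le_trans hw h

lemma tab_idx {W : Multiset ℕ} (hW : W.card = d + 1) {m : ℕ} (hm : m ≤ d) :
    tab d W (idx d m) = #{t ∈ range W.sup | le t W = m} := by
  unfold tab
  rw [Finset.sum_apply, Finset.card_filter]
  refine Finset.sum_congr rfl fun t ht => ?_
  have h1 := le_lt_card t W (Finset.mem_range.mp ht)
  rw [Pi.single_apply]
  have : idx d m = idx d (le t W) ↔ le t W = m := by
    rw [idx_inj hm (by omega)]
    exact eq_comm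
  simp only [this]

lemma tab_partial {W : Multiset ℕ} (hW : W.card = d + 1) {m : ℕ} (hm : m ≤ d) :
    ∑ l ∈ range (m + 1), tab d W (idx d l) = #{t ∈ range W.sup | le t W ≤ m} := by
  have h1 : ∀ l ∈ range (m + 1), tab d W (idx d l) = #{t ∈ range W.sup | le t W = l} := by
    intro l hl
    exact tab_idx hW (by have := Finset.mem_range.mp hl; omega)
  rw [Finset.sum_congr rfl h1]
  symm
  have h2 : {t ∈ range W.sup | le t W ≤ m} =
      (range (m + 1)).biUnion fun l => {t ∈ range W.sup | le t W = l} := by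
    ext t
    simp only [Finset.mem_filter, Finset.mem_range, Finset.mem_biUnion]
    constructor
    · rintro ⟨h3, h4⟩
      exact ⟨le t W, by omega, h3, rfl⟩
    · rintro ⟨l, h3, h4, rfl⟩
      exact ⟨h4, by omega⟩
  rw [h2, Finset.card_biUnion]
  intro l _ l' _ hne
  rw [Function.onFun, Finset.disjoint_left]
  intro t h3 h4
  rw [Finset.mem_filter] at h3 h4
  exact hne (h3.2.symm.trans h4.2)

lemma le_le_iff {W : Multiset ℕ} (hW : W.card = d + 1) {m : ℕ} (hm : m ≤ d) (t : ℕ) :
    le t W ≤ m ↔ t < ∑ l ∈ range (m + 1), tab d W (idx d l) := by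
  rw [tab_partial hW hm]
  have hex : ∃ t, ¬ le t W ≤ m := ⟨W.sup, by rw [le_of_sup_le _ _ le_rfl, hW]; omega⟩
  classical
  set K := Nat.find hex with hK
  have h1 : ∀ t, le t W ≤ m ↔ t < K := by
    intro t
    constructor
    · intro h
      by_contra hcon
      exact Nat.find_spec hex ((le_mono W (not_lt.mp hcon)).trans h)
    · intro h
      by_contra hcon
      exact absurd (Nat.find_min' hex hcon) (not_le.mpr h)
  have h2 : {t ∈ range W.sup | le t W ≤ m} = range K := by
    ext t
    rw [Finset.mem_filter, Finset.mem_range, Finset.mem_range, h1]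
    constructor
    · exact fun h => h.2
    · intro h
      refine ⟨?_, h⟩
      by_contra hcon
      have h3 := (h1 t).mpr h
      rw [le_of_sup_le _ _ (not_lt.mp hcon), hW] at h3
      omega
  rw [h2, Finset.card_range, h1]

lemma tab_inj {W W' : Multiset ℕ} (hW : W.card = d + 1) (hW' : W'.card = d + 1)
    (h : tab d W = tab d W') : W = W' := by
  have h1 : ∀ t, le t W = le t W' := by
    intro t
    have h2 : ∀ m, m ≤ d → (le t W ≤ m ↔ le t W' ≤ m) := by
      intro m hm
      rw [le_le_iff hW hm, le_le_iff hW' hm, h]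
    have h3 : le t W ≤ d + 1 := hW ▸ Multiset.countP_le_card _ _
    have h4 : le t W' ≤ d + 1 := hW' ▸ Multiset.countP_le_card _ _
    apply le_antisymm
    · rcases Nat.lt_or_ge (le t W') (d + 1) with h5 | h5
      · exact (h2 _ (by omega)).mpr le_rfl
      · omega
    · rcases Nat.lt_or_ge (le t W) (d + 1) with h5 | h5
      · exact (h2 _ (by omega)).mp le_rfl
      · omega
  have h5 : ∀ (V : Multiset ℕ) (v : ℕ), V.count v + (if v = 0 then 0 else le (v - 1) V) = le v V := by
    intro V v
    unfold le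
    induction V using Multiset.induction with
    | empty => simp
    | cons a V ih =>
      rw [Multiset.countP_cons, Multiset.countP_cons, Multiset.count_cons, ← ih]
      split_ifs <;> omega
  ext v
  have h6 := h5 W v
  have h7 := h5 W' v
  rw [h1 v] at h6
  split_ifs at h6 h7 with hv
  · omega
  · rw [h1] at h6
    omega

end Pool.Agent.K1H19.Lech
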